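import Mathlib

/-! Basic objects: the deformed exponential and the coefficient sequences. -/

namespace Pool.Agent.MP_39ed1d_co.H76

open Finset

/-- coefficients of the deformed exponential -/
noncomputable def ee (y : ℂ) (m : ℕ) : ℂ := y ^ (m.choose 2) / m.factorial

/-- the deformed exponential function -/
noncomputable def dE (y x : ℂ) : ℂ := ∑' m : ℕ, ee y m * x ^ m

/-- normalised inversion enumerators: `(y-1)^n * aa y n` are the coefficients of `E'/E` -/
noncomputable def aa (y : ℂ) : ℕ → ℂ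
  | 0 => 1
  | n + 1 => (∑ k : Fin (n + 1), (∑ i ∈ range (k + 1), y ^ i) * aa y k * aa y (n - k)) / (n + 1)
decreasing_by
  · exact k.2
  · omega

/-- coefficients of `E ^ q` -/
noncomputable def WW (q y : ℂ) : ℕ → ℂ
  | 0 => 1
  | n + 1 => q * (∑ k : Fin (n + 1), (y - 1) ^ (k : ℕ) * aa y k * WW q y (n - k)) / (n + 1)
decreasing_by omega

theorem aa_zero (y : ℂ) : aa y 0 = 1 := by rw [aa]

theorem aa_succ (y : ℂ) (n : ℕ) : ((n : ℂ) + 1) * aa y (n + 1) =
    ∑ k ∈ range (n + 1), (∑ i ∈ range (k + 1), y ^ i) * aa y k * aa y (n - k) := by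
  have h : ((n : ℂ) + 1) ≠ 0 := by exact_mod_cast n.succ_ne_zero
  rw [aa, Fin.sum_univ_eq_sum_range
    (fun k => (∑ i ∈ range (k + 1), y ^ i) * aa y k * aa y (n - k)) (n + 1)]
  field_simp

theorem WW_zero (q y : ℂ) : WW q y 0 = 1 := by rw [WW]

theorem WW_succ (q y : ℂ) (n : ℕ) : ((n : ℂ) + 1) * WW q y (n + 1) =
    q * ∑ k ∈ range (n + 1), (y - 1) ^ k * aa y k * WW q y (n - k) := by
  have h : ((n : ℂ) + 1) ≠ 0 := by exact_mod_cast n.succ_ne_zero
  rw [WW, Fin.sum_univ_eq_sum_range
    (fun k => (y - 1) ^ k * aa y k * WW q y (n - k)) (n + 1)]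
  field_simp

theorem ee_zero (y : ℂ) : ee y 0 = 1 := by simp [ee]

theorem ee_succ (y : ℂ) (m : ℕ) : ((m : ℂ) + 1) * ee y (m + 1) = y ^ m * ee y m := by
  have h : ((m : ℂ) + 1) ≠ 0 := by exact_mod_cast m.succ_ne_zero
  have h2 : (m.factorial : ℂ) ≠ 0 := by exact_mod_cast m.factorial_ne_zero
  have h3 : (m + 1).choose 2 = m + m.choose 2 := by
    rw [Nat.choose_succ_succ' m 1, Nat.choose_one_right]
  simp only [ee, h3, pow_add, Nat.factorial_succ]
  push_cast
  field_simp

open PowerSeries in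
/-- solutions of a first order linear equation are determined by the constant term -/
theorem ps_unique (U A B : ℂ⟦X⟧) (hA : d⁄dX ℂ A = U * A) (hB : d⁄dX ℂ B = U * B)
    (h0 : coeff 0 A = coeff 0 B) : A = B := by
  ext n
  induction n using Nat.strong_induction_on with
  | _ n ih =>
    rcases n with _ | n
    · exact h0
    · have h : ((n : ℂ) + 1) ≠ 0 := by exact_mod_cast n.succ_ne_zero
      have h1 := congrArg (coeff n) hA
      have h2 := congrArg (coeff n) hB
      rw [coeff_derivative, coeff_mul] at h1 h2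
      apply mul_right_cancel₀ h
      rw [h1, h2]
      refine sum_congr rfl fun p hp => ?_
      rw [ih p.2 (by have := mem_antidiagonal.1 hp; omega)]

open PowerSeries in
theorem deriv_rescale (y : ℂ) (A : ℂ⟦X⟧) :
    d⁄dX ℂ (rescale y A) = C y * rescale y (d⁄dX ℂ A) := by
  ext n
  simp only [coeff_derivative, coeff_rescale, coeff_C_mul]
  ring

open PowerSeries in
theorem deriv_ee (y : ℂ) : d⁄dX ℂ (mk (ee y)) = rescale y (mk (ee y)) := by
  ext n
  simp only [coeff_derivative, coeff_rescale, coeff_mk]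
  rw [← ee_succ]; ring

open PowerSeries in
theorem ps_logderiv (y : ℂ) :
    d⁄dX ℂ (mk (ee y)) = mk (fun k => (y - 1) ^ k * aa y k) * mk (ee y) := by
  set E : ℂ⟦X⟧ := mk (ee y) with hE
  have hu : constantCoeff E ≠ 0 := by
    rw [← coeff_zero_eq_constantCoeff_apply, hE, coeff_mk, ee_zero]; exact one_ne_zero
  have hE0 : E ≠ 0 := fun h => hu (by rw [h]; simp)
  obtain ⟨V, h1⟩ : ∃ V : ℂ⟦X⟧, V * E = rescale y E :=
    ⟨rescale y E * E⁻¹, by rw [mul_assoc, PowerSeries.inv_mul_cancel _ hu, mul_one]⟩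
  have h2 : d⁄dX ℂ E = V * E := by rw [h1, hE, deriv_ee]
  have h3 : d⁄dX ℂ V = (C y * rescale y V - V) * V := by
    apply mul_right_cancel₀ hE0
    have h4 := congrArg (d⁄dX ℂ) h1
    rw [Derivation.leibniz, deriv_rescale, h2, map_mul (rescale y), ← h1] at h4
    simp only [smul_eq_mul] at h4
    linear_combination h4
  have h5 : ∀ n, coeff n V = (y - 1) ^ n * aa y n := by
    intro n
    induction n using Nat.strong_induction_on with
    | _ n ih =>
      rcases n with _ | n
      · have := congrArg (coeff 0) h1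
        rw [coeff_mul, coeff_rescale, hE] at this
        simpa [aa_zero, ee_zero] using this
      · have h : ((n : ℂ) + 1) ≠ 0 := by exact_mod_cast n.succ_ne_zero
        have h6 := congrArg (coeff n) h3
        rw [coeff_derivative, coeff_mul, Finset.Nat.sum_antidiagonal_eq_sum_range_succ
          (fun i j => coeff i (C y * rescale y V - V) * coeff j V)] at h6
        apply mul_right_cancel₀ h
        rw [h6, mul_assoc, mul_comm (aa y (n + 1)), aa_succ, mul_sum]
        refine sum_congr rfl fun k hk => ?_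
        have hk' : k ≤ n := by have := mem_range.1 hk; omega
        rw [map_sub, coeff_C_mul, coeff_rescale, ih k (by omega), ih (n - k) (by omega)]
        have e1 : (y - 1) ^ (n + 1) = (y - 1) ^ k * (y - 1) ^ (n - k) * (y - 1) := by
          rw [← pow_add, ← pow_succ]; congr 1; omega
        have e2 := mul_geom_sum y (k + 1)
        rw [e1]
        linear_combination (-((y - 1) ^ k * aa y k * ((y - 1) ^ (n - k) * aa y (n - k)))) * e2
  rw [h2]
  congr 1
  ext n
  rw [h5, coeff_mk]

/-- `E' = u E` on coefficients -/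
theorem ee_aa (y : ℂ) (n : ℕ) : ((n : ℂ) + 1) * ee y (n + 1) =
    ∑ k ∈ range (n + 1), (y - 1) ^ k * aa y k * ee y (n - k) := by
  have h := congrArg (PowerSeries.coeff n) (ps_logderiv y)
  rw [PowerSeries.coeff_derivative, PowerSeries.coeff_mul,
    Finset.Nat.sum_antidiagonal_eq_sum_range_succ (fun i j => PowerSeries.coeff i
      (PowerSeries.mk (fun k => (y - 1) ^ k * aa y k)) * PowerSeries.coeff j
      (PowerSeries.mk (ee y)))] at h
  simp only [PowerSeries.coeff_mk] at h
  rw [← h]; ring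

open PowerSeries in
theorem ps_WW (q y : ℂ) :
    d⁄dX ℂ (mk (WW q y)) = (C q * mk (fun k => (y - 1) ^ k * aa y k)) * mk (WW q y) := by
  ext n
  rw [coeff_derivative, mul_assoc, coeff_C_mul, coeff_mul,
    Finset.Nat.sum_antidiagonal_eq_sum_range_succ (fun i j => coeff i
      (mk (fun k => (y - 1) ^ k * aa y k)) * coeff j (mk (WW q y)))]
  simp only [coeff_mk]
  rw [← WW_succ]; ring

theorem differentiable_aa (n : ℕ) : Differentiable ℂ (fun y => aa y n) := by
  induction n using Nat.strong_induction_on with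
  | _ n ih =>
    rcases n with _ | n
    · simp [aa_zero]
    · have h : ((n : ℂ) + 1) ≠ 0 := by exact_mod_cast n.succ_ne_zero
      have : (fun y => aa y (n + 1)) = fun y => (∑ k ∈ range (n + 1),
          (∑ i ∈ range (k + 1), y ^ i) * aa y k * aa y (n - k)) / ((n : ℂ) + 1) := by
        funext y; rw [← aa_succ]; field_simp
      rw [this]
      refine Differentiable.div_const (Differentiable.fun_sum fun k hk => ?_) _
      have hk' := mem_range.1 hk
      exact ((by fun_prop : Differentiable ℂ fun y : ℂ => ∑ i ∈ range (k + 1), y ^ i).mul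
        (ih k hk')).mul (ih (n - k) (by omega))

theorem norm_ee_le {y : ℂ} (hy : ‖y‖ ≤ 1) (m : ℕ) : ‖ee y m‖ ≤ 1 / m.factorial := by
  rw [ee, norm_div, norm_pow, Complex.norm_natCast]
  gcongr
  exact pow_le_one₀ (norm_nonneg _) hy

theorem norm_term_le {y x : ℂ} {R : ℝ} (hy : ‖y‖ ≤ 1) (hx : ‖x‖ ≤ R) (m : ℕ) :
    ‖ee y m * x ^ m‖ ≤ R ^ m / m.factorial := by
  rw [norm_mul, norm_pow]
  calc _ ≤ 1 / m.factorial * R ^ m := by gcongr; exact norm_ee_le hy m
    _ = _ := by ring

theorem summable_dE {y : ℂ} (hy : ‖y‖ ≤ 1) (x : ℂ) : Summable fun m => ‖ee y m * x ^ m‖ :=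
  Summable.of_nonneg_of_le (fun _ => norm_nonneg _) (norm_term_le hy le_rfl)
    (Real.summable_pow_div_factorial _)

theorem dE_zero (y : ℂ) : dE y 0 = 1 := by
  rw [dE, tsum_eq_single 0 (fun m hm => by simp [hm])]; simp [ee_zero]

theorem continuousOn_dE (R : ℝ) : ContinuousOn (fun p : ℂ × ℂ => dE p.1 p.2)
    (Metric.closedBall 0 1 ×ˢ Metric.closedBall 0 R) := by
  refine continuousOn_tsum (fun m => ?_) (Real.summable_pow_div_factorial R) fun m p hp => ?_
  · unfold ee; fun_prop
  · exact norm_term_le (mem_closedBall_zero_iff.1 hp.1) (mem_closedBall_zero_iff.1 hp.2) m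

theorem hasDerivAt_dE {y : ℂ} (hy : ‖y‖ ≤ 1) (x : ℂ) : HasDerivAt (dE y) (dE y (y * x)) x := by
  set R := ‖x‖ + 1 with hR
  have hs : ∀ z : ℂ, dE y z = 1 + ∑' m : ℕ, ee y (m + 1) * z ^ (m + 1) := fun z => by
    rw [dE, (summable_dE hy z).of_norm.tsum_eq_zero_add]; simp [ee_zero]
  have h := hasDerivAt_tsum_of_isPreconnected (u := fun m : ℕ => R ^ m / m.factorial)
    (g := fun (m : ℕ) (z : ℂ) => ee y (m + 1) * z ^ (m + 1))
    (g' := fun (m : ℕ) (z : ℂ) => ee y m * (y * z) ^ m) (t := Metric.ball (0 : ℂ) R)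
    (y₀ := 0) (y := x) (Real.summable_pow_div_factorial R) Metric.isOpen_ball
    (convex_ball _ _).isPreconnected (fun m z _ => by
      have := (hasDerivAt_pow (m + 1) z).const_mul (ee y (m + 1))
      refine this.congr_deriv ?_
      have := ee_succ y m
      rw [Nat.add_sub_cancel, mul_pow]
      push_cast
      linear_combination (z ^ m) * this)
    (fun m z hz => norm_term_le hy (by
      rw [norm_mul]
      have := (mem_ball_zero_iff.1 hz).le
      nlinarith [norm_nonneg y, norm_nonneg z]) m)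
    (by simp [hR]; positivity) (by simp [summable_zero]) (by simp [hR])
  have h2 := h.const_add 1
  exact h2.congr_of_eventuallyEq (Filter.Eventually.of_forall hs)

theorem differentiable_dE {y : ℂ} (hy : ‖y‖ ≤ 1) : Differentiable ℂ (dE y) :=
  fun x => (hasDerivAt_dE hy x).differentiableAt

end Pool.Agent.MP_39ed1d_co.H76
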