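import Pool.Agent.MP_39ed1d_co.H76.Lift

/-! A verified checker for the winding of a trigonometric polynomial. -/

namespace Pool.Agent.MP_39ed1d_co.H76

open Set Complex

abbrev Z := ℕ × ℕ

def val (z : Z) : ℝ := (z.1 : ℝ) - z.2
def zabs (z : Z) : ℕ := (z.1 - z.2) + (z.2 - z.1)
def zadd (a b : Z) : Z := (a.1 + b.1, a.2 + b.2)
def zsub (a b : Z) : Z := (a.1 + b.2, a.2 + b.1)
def zmul (n : ℕ) (a : Z) : Z := (n * a.1, n * a.2)

theorem val_zabs (z : Z) : (zabs z : ℝ) = |val z| := by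
  unfold zabs val
  rcases le_total z.1 z.2 with h | h
  · have h' : (z.1 : ℝ) ≤ z.2 := by exact_mod_cast h
    rw [Nat.sub_eq_zero_of_le h, zero_add, Nat.cast_sub h, abs_of_nonpos (by linarith)]; ring
  · have h' : (z.2 : ℝ) ≤ z.1 := by exact_mod_cast h
    rw [Nat.sub_eq_zero_of_le h, add_zero, Nat.cast_sub h, abs_of_nonneg (by linarith)]

theorem val_zadd (a b : Z) : val (zadd a b) = val a + val b := by
  simp only [val, zadd]; push_cast; ring
theorem val_zsub (a b : Z) : val (zsub a b) = val a - val b := by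
  simp only [val, zsub]; push_cast; ring
theorem val_zmul (n : ℕ) (a : Z) : val (zmul n a) = n * val a := by
  simp only [val, zmul]; push_cast; ring

/-- value of a coefficient list, highest coefficient first -/
noncomputable def ev (q : ℂ) : List Z → ℂ
  | [] => 0
  | c :: l => val c * q ^ l.length + ev q l

noncomputable def nrm (l : List Z) : ℕ := List.rec 0 (fun c _ r => zabs c + r) l

noncomputable def wt (l : List Z) : List Z × ℕ :=
  List.rec ([], 0) (fun c _ r => (zmul r.2 c :: r.1, r.2 + 1)) l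

noncomputable def dif (l : List Z) : Z → List Z :=
  List.rec (fun p => [p]) (fun c _ ih p => zsub p c :: ih c) l

noncomputable def ndif (j : ℕ) (l : List Z) : List Z := Nat.rec l (fun _ r => dif r (0, 0)) j

theorem norm_ev_le {q : ℂ} (hq : ‖q‖ ≤ 1) (l : List Z) : ‖ev q l‖ ≤ nrm l := by
  induction l with
  | nil => simp [ev]
  | cons c l ih =>
    have : nrm (c :: l) = zabs c + nrm l := rfl
    rw [this, ev]
    push_cast
    refine (norm_add_le _ _).trans (add_le_add ?_ ih)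
    rw [norm_mul, norm_pow, norm_real, val_zabs, Real.norm_eq_abs]
    exact mul_le_of_le_one_right (abs_nonneg _) (pow_le_one₀ (norm_nonneg _) hq)

theorem wt_len (l : List Z) : (wt l).2 = l.length ∧ (wt l).1.length = l.length := by
  induction l with
  | nil => exact ⟨rfl, rfl⟩
  | cons c l ih =>
    have : wt (c :: l) = (zmul (wt l).2 c :: (wt l).1, (wt l).2 + 1) := rfl
    rw [this]; simp [ih.1, ih.2]

theorem hasDerivAt_ev (l : List Z) (α : ℝ) :
    HasDerivAt (fun α : ℝ => ev (exp (α * I)) l) (I * ev (exp (α * I)) (wt l).1) α := by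
  induction l with
  | nil => simpa [ev, wt] using hasDerivAt_const α (0 : ℂ)
  | cons c l ih =>
    have : wt (c :: l) = (zmul (wt l).2 c :: (wt l).1, (wt l).2 + 1) := rfl
    rw [this]
    simp only [ev, (wt_len l).1, (wt_len l).2, val_zmul, ← exp_nat_mul]
    have h1 : HasDerivAt (fun α : ℝ => (l.length : ℂ) * (α * I)) (l.length * (1 * I)) α :=
      ((hasDerivAt_id (α : ℂ)).comp_ofReal.mul_const I).const_mul _
    refine ((h1.cexp.const_mul (val c : ℂ)).add ih).congr_deriv ?_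
    push_cast; ring

theorem dif_spec (q : ℂ) (l : List Z) : ∀ p, (dif l p).length = l.length + 1 ∧
    ev q (dif l p) = val p * q ^ l.length + (1 - q) * ev q l := by
  induction l with
  | nil => intro p; exact ⟨rfl, by simp [dif, ev]⟩
  | cons c l ih =>
    intro p
    have : dif (c :: l) p = zsub p c :: dif l c := rfl
    rw [this]
    refine ⟨by simp [(ih c).1], ?_⟩
    simp only [ev, (ih c).1, (ih c).2, val_zsub, List.length_cons]
    push_cast; ring

theorem ndif_spec (q : ℂ) (l : List Z) (j : ℕ) : ev q (ndif j l) = (1 - q) ^ j * ev q l := by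
  induction j with
  | zero => simp [ndif]
  | succ j ih =>
    have : ndif (j + 1) l = dif (ndif j l) (0, 0) := rfl
    rw [this, (dif_spec q _ _).2, ih]; simp [val]; ring

noncomputable def frc {β : Type} (x : ℕ) (k : ℕ → β) : β :=
  Nat.rec (k 0) (fun m _ => k (Nat.succ m)) x

theorem frc_eq {β : Type} (x : ℕ) (k : ℕ → β) : frc x k = k x := by cases x <;> rfl

noncomputable def off (O : ℕ) (l : List Z) : List ℕ :=
  List.rec [] (fun c _ r => (c.1 + O - c.2) :: r) l

noncomputable def cl (a d : ℕ) (l : List ℕ) : ℕ → ℕ → ℕ × ℕ :=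
  List.rec (fun B s => (B, s)) (fun c _ ih B s =>
    (fun t => ih (Nat.sub t B) t) (Nat.sub (Nat.add c (Nat.div (Nat.mul a B) d)) s)) l

theorem div_err (m d : ℕ) (hd : 0 < d) :
    (m : ℝ) / d - 1 ≤ ((m / d : ℕ) : ℝ) ∧ ((m / d : ℕ) : ℝ) ≤ (m : ℝ) / d := by
  refine ⟨?_, Nat.cast_div_le⟩
  have h : (0 : ℝ) < d := by exact_mod_cast hd
  rw [sub_le_iff_le_add, div_le_iff₀ h]
  have := (Nat.lt_div_mul_add (a := m) hd).le
  have : (m : ℝ) ≤ ((m / d * d + d : ℕ) : ℝ) := by exact_mod_cast this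
  push_cast at this; linarith

theorem cl_spec {a d Oc : ℕ} (hd : 0 < d) {O W : ℝ} (hO : (4 - a / d) * O = Oc) (hW : W ≤ Oc)
    {q q' : ℂ} (hq : ‖q‖ = 1) (hqq : q * q' = 1) (hs : q + q' = ((a / d - 2 : ℝ) : ℂ))
    (l : List Z) : ∀ B s : ℕ,
    ‖((B - O : ℝ) : ℂ) - q' * ((s - B - O : ℝ) : ℂ)‖ + nrm l + l.length ≤ W →
    |B - O| + l.length * W ≤ O →
    ‖((((cl a d (off Oc l) B s).1 - O : ℝ) : ℂ) -
      q' * (((cl a d (off Oc l) B s).2 - (cl a d (off Oc l) B s).1 - O : ℝ) : ℂ)) -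
      ((((B - O : ℝ) : ℂ) - q' * ((s - B - O : ℝ) : ℂ)) * q ^ l.length + ev q l)‖ ≤ l.length := by
  have hq' : ‖q'‖ = 1 := by
    have := congrArg norm hqq
    rwa [norm_mul, hq, one_mul, norm_one] at this
  induction l with
  | nil => intro B s _ _; simp [cl, off, ev]
  | cons c l ih =>
    intro B s h1 h2
    have e0 : cl a d (off Oc (c :: l)) B s = cl a d (off Oc l)
      (c.1 + Oc - c.2 + a * B / d - s - B) (c.1 + Oc - c.2 + a * B / d - s) := rfl
    have e1 : nrm (c :: l) = zabs c + nrm l := rfl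
    rw [e1, List.length_cons] at h1
    rw [List.length_cons] at h2
    push_cast at h1 h2
    rw [val_zabs] at h1
    have n1 := norm_nonneg ((B : ℂ) - O - q' * (s - B - O))
    have n2 := Nat.cast_nonneg (α := ℝ) (nrm l)
    have n3 := Nat.cast_nonneg (α := ℝ) l.length
    have n4 := abs_nonneg (val c)
    have hc : c.2 ≤ c.1 + Oc := by
      have : (c.2 : ℝ) ≤ c.1 + Oc := by
        have := neg_abs_le (val c)
        rw [val] at this h1 n4; linarith
      exact_mod_cast this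
    obtain ⟨d1, d2⟩ := div_err (a * B) d hd
    set e : ℝ := ((a * B / d : ℕ) : ℝ) - a / d * B with he
    have he1 : |e| ≤ 1 := by
      push_cast at d1 d2
      rw [he, div_mul_eq_mul_div, abs_le]; constructor <;> linarith
    set b : ℝ := val c + (a / d - 2) * (B - O) - (s - B - O) + e with hb
    have hH : (b : ℂ) - q' * ((B - O : ℝ) : ℂ) = q * (B - O - q' * (s - B - O)) + val c + e := by
      rw [hb, ofReal_add, ofReal_sub, ofReal_add, ofReal_mul, ← hs]
      push_cast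
      linear_combination ((s : ℂ) - B - O) * hqq
    have hH1 : ‖(b : ℂ) - q' * ((B - O : ℝ) : ℂ)‖ ≤
        ‖(B : ℂ) - O - q' * (s - B - O)‖ + |val c| + 1 := by
      rw [hH]
      refine norm_add_le_of_le (norm_add_le_of_le ?_ (by rw [norm_real]; rfl))
        (by rwa [norm_real])
      rw [norm_mul, hq, one_mul]
    have hb1 : |b| ≤ W + |B - O| := by
      have := norm_add_le ((b : ℂ) - q' * ((B - O : ℝ) : ℂ)) (q' * ((B - O : ℝ) : ℂ))
      rw [sub_add_cancel, norm_mul, hq', one_mul, norm_real, norm_real, Real.norm_eq_abs,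
        Real.norm_eq_abs] at this
      linarith
    have hW0 : 0 ≤ l.length * W := mul_nonneg n3 (by linarith)
    have hv : ((c.1 + Oc - c.2 + a * B / d : ℕ) : ℝ) = b + O + s + B := by
      rw [Nat.cast_add, Nat.cast_sub hc, Nat.cast_add, hb, he, val]
      linear_combination -hO
    have hle : s + B ≤ c.1 + Oc - c.2 + a * B / d := by
      have : ((s + B : ℕ) : ℝ) ≤ ((c.1 + Oc - c.2 + a * B / d : ℕ) : ℝ) := by
        rw [hv, Nat.cast_add]; linarith [neg_abs_le b]
      exact_mod_cast this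
    rw [e0]
    generalize c.1 + Oc - c.2 + a * B / d = T at hv hle
    have v1 : ((T - s - B : ℕ) : ℝ) - O = b := by
      rw [Nat.sub_sub, Nat.cast_sub hle, hv, Nat.cast_add]; ring
    have v2 : ((T - s : ℕ) : ℝ) - ((T - s - B : ℕ) : ℝ) - O = B - O := by
      rw [Nat.cast_sub (show B ≤ T - s by omega)]; ring
    have h3 := ih (T - s - B) (T - s) (by rw [v1, v2]; linarith) (by rw [v1]; linarith)
    rw [v1, v2, hH] at h3
    have h4 : ‖(e : ℂ) * q ^ l.length‖ ≤ 1 := by
      rw [norm_mul, norm_pow, hq, one_pow, mul_one, norm_real]; exact he1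
    have h5 := norm_add_le_of_le h3 h4
    rw [List.length_cons, ev, Nat.cast_succ]
    refine le_of_eq_of_le (congrArg _ ?_) h5
    push_cast
    ring

/-- the angle attached to the integer `x` -/
noncomputable def ang (D x : ℕ) : ℝ := 2 * Real.arctan (x / D)

noncomputable def evz (D Oc x : ℕ) (l : List ℕ) : Z × Z :=
  frc (D * D + x * x) fun d => frc (4 * D * D) fun a => frc (Oc * d / (4 * x * x)) fun o =>
    (fun r : ℕ × ℕ => frc r.1 fun B => frc r.2 fun s =>
      (zsub (zadd (zmul d (B, o)) (zmul (x * x) (s, B + o))) (zmul (D * D) (s, B + o)),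
        zmul (2 * D * x) (s, B + o))) (cl a d l o (2 * o))

noncomputable def fit (Oc L : ℕ) (l : List Z) : Bool :=
  Nat.ble (4 * (1 + (L + 1) * (2 + nrm l + L))) Oc

noncomputable def rot (k : ℕ) (w : Z × Z) : Z × Z :=
  Nat.rec w (fun _ r => (zadd r.1 r.2, zsub r.2 r.1)) k

/-- complex value of a pair -/
noncomputable def cv (w : Z × Z) : ℂ := val w.1 + val w.2 * I

theorem cv_rot (k : ℕ) (w : Z × Z) : cv (rot k w) = (1 - I) ^ k * cv w := by
  induction k with
  | zero => simp [rot]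
  | succ k ih =>
    have : rot (k + 1) w = (zadd (rot k w).1 (rot k w).2, zsub (rot k w).2 (rot k w).1) := rfl
    rw [pow_succ', mul_assoc, ← ih, this]
    simp only [cv, val_zadd, val_zsub]
    push_cast
    linear_combination (val (rot k w).2) * I_mul_I

theorem exp_ang {D : ℕ} (hD : 0 < D) (x : ℕ) : exp (ang D x * I) =
    (((D * D - x * x) / (D * D + x * x) : ℝ) : ℂ) + ((2 * D * x / (D * D + x * x) : ℝ) : ℂ) * I := by
  have hD' : (0 : ℝ) < D := by exact_mod_cast hD
  have h1 : (0 : ℝ) < 1 + (x / D) ^ 2 := by positivity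
  have h2 := Real.mul_self_sqrt h1.le
  have h3 := Real.sqrt_pos.2 h1
  rw [exp_mul_I, ← ofReal_cos, ← ofReal_sin, ang, Real.cos_two_mul, Real.sin_two_mul,
    Real.cos_sq_arctan, Real.sin_arctan, Real.cos_arctan]
  congr 2
  · field_simp; ring
  · congr 1
    rw [mul_assoc, div_mul_div_comm, h2]
    field_simp

theorem evz_spec {D Oc x L : ℕ} (hD : 0 < D) (hx : 0 < x) {l : List Z} (hl : l.length + 4 ≤ L)
    (hf : fit Oc L l = true) :
    ‖cv (evz D Oc x (off Oc l)) - ((D * D + x * x : ℝ) : ℂ) * ev (exp (ang D x * I)) l‖ ≤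
      (D * D + x * x) * L := by
  have hD' : (0 : ℝ) < D := by exact_mod_cast hD
  have hx' : (0 : ℝ) < x := by exact_mod_cast hx
  have hd : (0 : ℝ) < D * D + x * x := by positivity
  set q := exp (ang D x * I) with hq
  set q' : ℂ := (((D * D - x * x) / (D * D + x * x) : ℝ) : ℂ) -
    ((2 * D * x / (D * D + x * x) : ℝ) : ℂ) * I with hq'
  have hdc : ((D : ℂ) * D + x * x) ≠ 0 := by exact_mod_cast hd.ne'
  have hinv := mul_inv_cancel₀ hdc
  have hqq : q * q' = 1 := by
    rw [hq, exp_ang hD, hq']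
    push_cast
    simp only [div_eq_mul_inv]
    linear_combination (-(4 * (D : ℂ) ^ 2 * (x : ℂ) ^ 2 * ((D : ℂ) * D + x * x)⁻¹ ^ 2)) * I_mul_I +
      (((D : ℂ) * D + x * x) * ((D : ℂ) * D + x * x)⁻¹ + 1) * hinv
  have hs : q + q' = ((((4 * D * D : ℕ) : ℝ) / ((D * D + x * x : ℕ) : ℝ) - 2 : ℝ) : ℂ) := by
    rw [hq, exp_ang hD, hq']; push_cast
    simp only [div_eq_mul_inv]
    linear_combination (-2) * hinv
  have hn : ‖q‖ = 1 := norm_exp_ofReal_mul_I _
  have hn' : ‖q'‖ = 1 := by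
    have := congrArg norm hqq
    rwa [norm_mul, hn, one_mul, norm_one] at this
  have hd0 : 0 < D * D + x * x := by positivity
  set O : ℝ := Oc * (D * D + x * x) / (4 * x * x) with hO
  obtain ⟨d1, d2⟩ := div_err (Oc * (D * D + x * x)) (4 * x * x) (by positivity)
  push_cast at d1 d2
  rw [← hO] at d1 d2
  simp only [evz, frc_eq]
  generalize Oc * (D * D + x * x) / (4 * x * x) = o at d1 d2
  have hδ : ‖((o - O : ℝ) : ℂ) * (1 - q')‖ ≤ 1 * 2 := by
    rw [norm_mul, norm_real]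
    refine mul_le_mul (abs_le.2 ⟨by linarith, by linarith⟩) ?_ (norm_nonneg _) zero_le_one
    have := norm_sub_le 1 q'
    rw [norm_one, hn'] at this; linarith
  have e0 : ((o - O : ℝ) : ℂ) - q' * ((((2 * o : ℕ) : ℝ) - o - O : ℝ) : ℂ) =
      ((o - O : ℝ) : ℂ) * (1 - q') := by push_cast; ring
  rw [fit, Nat.ble_eq] at hf
  have hf' := (Nat.cast_le (α := ℝ)).2 hf
  have hl' := (Nat.cast_le (α := ℝ)).2 hl
  push_cast at hf' hl'
  have n2 := Nat.cast_nonneg (α := ℝ) (nrm l)
  have n3 := Nat.cast_nonneg (α := ℝ) l.length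
  have hO4 : (Oc : ℝ) / 4 ≤ O := by
    rw [hO, div_le_div_iff₀ (by norm_num) (by positivity)]
    nlinarith [mul_nonneg (Nat.cast_nonneg (α := ℝ) Oc) (mul_pos hD' hD').le]
  have n4 : (l.length : ℝ) * (2 + nrm l + L) ≤ L * (2 + nrm l + L) :=
    mul_le_mul_of_nonneg_right (by linarith) (by linarith)
  have n5 : 0 ≤ (l.length : ℝ) * (2 + nrm l + L) := mul_nonneg n3 (by linarith)
  have h1 := cl_spec (a := 4 * D * D) (Oc := Oc) (O := O) (W := 2 + nrm l + L) hd0
    (by rw [hO]; push_cast; field_simp; ring) (by linarith) hn hqq hs l o (2 * o)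
    (by rw [e0]; linarith) (by have := abs_le.2 (⟨by linarith, by linarith⟩ :
      -1 ≤ o - O ∧ o - O ≤ 1); linarith)
  rw [e0] at h1
  generalize cl (4 * D * D) (D * D + x * x) (off Oc l) o (2 * o) = r at h1
  have h2 : ‖((o - O : ℝ) : ℂ) * (1 - q') * q ^ l.length‖ ≤ 1 * 2 := by
    rw [norm_mul, norm_pow, hn, one_pow, mul_one]; exact hδ
  have h3 := mul_le_mul_of_nonneg_left ((norm_sub_le_of_le (norm_add_le_of_le h1 h2) hδ).trans
    (show _ ≤ (L : ℝ) by linarith)) hd.le
  rw [← Real.norm_of_nonneg hd.le, ← norm_real, ← norm_mul, norm_real,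
    Real.norm_of_nonneg hd.le] at h3
  refine le_of_eq_of_le (congrArg _ ?_) h3
  simp only [cv, val_zsub, val_zadd, val_zmul, hq']
  simp only [val]
  push_cast
  simp only [div_eq_mul_inv]
  linear_combination (((r.2 : ℂ) - r.1 - o) * ((D : ℂ) * D - x * x - 2 * D * x * I)) * hinv

theorem mvt {f f' : ℝ → ℂ} {a b K : ℝ} (hf : ∀ s ∈ uIcc a b, HasDerivAt f (f' s) s)
    (hK : ∀ s ∈ uIcc a b, ‖f' s‖ ≤ K) : ‖f b - f a‖ ≤ K * |b - a| :=
  (convex_uIcc a b).norm_image_sub_le_of_norm_hasDerivWithin_le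
    (fun s hs => (hf s hs).hasDerivWithinAt) hK left_mem_uIcc right_mem_uIcc

theorem mvt2 {f f' f'' : ℝ → ℂ} {a b K : ℝ} (hf : ∀ s, HasDerivAt f (f' s) s)
    (hf' : ∀ s, HasDerivAt f' (f'' s) s) (hK : ∀ s ∈ uIcc a b, ‖f'' s‖ ≤ K) :
    ‖f b - f a - (b - a : ℝ) * f' a‖ ≤ K / 2 * |b - a| * |b - a| := by
  have hK0 : 0 ≤ K := (norm_nonneg _).trans (hK a left_mem_uIcc)
  have hd : ∀ s : ℝ, HasDerivAt (fun s : ℝ => f (a + s * (b - a)) - f a - (s * (b - a) : ℝ) * f' a)
      ((b - a : ℝ) * (f' (a + s * (b - a)) - f' a)) s := fun s => by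
    have h1 : HasDerivAt (fun s : ℝ => s * (b - a)) (b - a) s := by
      simpa using (hasDerivAt_id s).mul_const (b - a)
    refine ((((hf _).scomp s (h1.const_add a)).sub_const (f a)).sub
      (h1.ofReal_comp.mul_const (f' a))).congr_deriv ?_
    rw [real_smul]; ring
  have h := image_norm_le_of_norm_deriv_right_le_deriv_boundary (a := 0) (b := 1)
    (fun s _ => (hd s).continuousAt.continuousWithinAt) (fun s _ => (hd s).hasDerivWithinAt)
    (B := fun s => K / 2 * |b - a| * |b - a| * s ^ 2) (B' := fun s => K * |b - a| * |b - a| * s)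
    (by simp) (fun s => ((hasDerivAt_pow 2 s).const_mul _).congr_deriv (by push_cast; ring))
    (fun s hs => by
      have hm : a + s * (b - a) ∈ uIcc a b := by
        rw [← segment_eq_uIcc]
        exact ⟨1 - s, s, by linarith [hs.2], hs.1, by ring, by simp only [smul_eq_mul]; ring⟩
      have := mvt (fun t _ => hf' t) fun t ht => hK t (uIcc_subset_uIcc_left hm ht)
      rw [add_sub_cancel_left, abs_mul, abs_of_nonneg hs.1] at this
      rw [norm_mul, norm_real, Real.norm_eq_abs]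
      calc _ ≤ |b - a| * (K * (s * |b - a|)) := by gcongr
        _ = _ := by ring) (right_mem_Icc.2 zero_le_one)
  simpa using h

/-- lower bound for `‖1 - q‖` on an arc, in units of `1 / D` -/
def mu (D x r : ℕ) : ℕ := 4 * x * D / (2 * (D + x) - min D x) - r

theorem mu_le {D : ℕ} (hD : 0 < D) (x r : ℕ) {α : ℝ} (hα : |α - ang D x| ≤ r / D) :
    (mu D x r : ℝ) / D ≤ ‖1 - exp (α * I)‖ := by
  have hD' : (0 : ℝ) < D := by exact_mod_cast hD
  have hd : (0 : ℝ) < D * D + x * x := by positivity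
  have h1 : ‖exp (α * I) - exp (ang D x * I)‖ ≤ r / D := by
    have := mvt (f := fun s : ℝ => exp (s * I)) (f' := fun s => exp (s * I) * (1 * I))
      (a := ang D x) (b := α) (K := 1)
      (fun s _ => ((hasDerivAt_id (s : ℂ)).comp_ofReal.mul_const I).cexp) (fun s _ => by simp)
    linarith
  set s := 2 * (D + x) - min D x with hs
  have hs0 : 0 < s := by omega
  have hs' : (0 : ℝ) < s := by exact_mod_cast hs0
  have hs2 : 4 * ((D : ℝ) * D + x * x) ≤ s * s := by
    have : 4 * (D * D + x * x) ≤ s * s := by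
      rcases le_total D x with h | h
      · have : s = D + 2 * x := by omega
        rw [this]; nlinarith
      · have : s = 2 * D + x := by omega
        rw [this]; nlinarith
    exact_mod_cast this
  have h2 : 4 * x / s ≤ ‖1 - exp (ang D x * I)‖ := by
    refine le_of_sq_le_sq ?_ (norm_nonneg _)
    rw [Complex.sq_norm, normSq_apply, exp_ang hD]
    simp only [sub_re, one_re, add_re, ofReal_re, mul_re, I_re, mul_zero, ofReal_im, I_im,
      mul_one, sub_self, add_zero, sub_im, one_im, add_im, mul_im, zero_add, zero_sub]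
    have : (1 - ((D : ℝ) * D - x * x) / (D * D + x * x)) * (1 - (D * D - x * x) / (D * D + x * x)) +
        -(2 * D * x / (D * D + x * x)) * -(2 * D * x / (D * D + x * x)) =
        (4 * x) ^ 2 / (4 * (D * D + x * x)) := by field_simp; ring
    rw [this, div_pow]
    gcongr
    rw [sq]; exact hs2
  have h3 := norm_sub_norm_le (1 - exp (ang D x * I)) (1 - exp (α * I))
  rw [show 1 - exp (ang D x * I) - (1 - exp (α * I)) = exp (α * I) - exp (ang D x * I) by ring] at h3
  rcases le_total r (4 * x * D / s) with h | h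
  · rw [mu, ← hs, Nat.cast_sub h, sub_div]
    have h4 : ((4 * x * D / s : ℕ) : ℝ) / D ≤ 4 * x / s := by
      rw [div_le_iff₀ hD']
      refine Nat.cast_div_le.trans (le_of_eq ?_)
      push_cast; ring
    linarith
  · rw [mu, ← hs, Nat.sub_eq_zero_of_le h]; simp

noncomputable def arcOk (D Oc L sl : ℕ) (A A1 B : List ℕ) (A2 B1 : List Z) (x r k j : ℕ) : Bool :=
  let ra := (rot k (evz D Oc x A)).1
  let T := 1000 ^ k * mu D x r ^ j * D
  Nat.blt 0 x &&
  Nat.blt (T * (D * ra.2 + D * zabs (rot k (evz D Oc x B)).1 + r * zabs (rot k (evz D Oc x A1)).2) +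
    1415 ^ k * (D * D + x * x) * ((r * r * nrm (ndif j A2) + 1) / 2 * D ^ j + r * D * nrm (ndif j B1) * D ^ j +
      mu D x r ^ j * D * (D * sl + 2 * D * L + r * L))) (T * D * ra.1)

theorem ndif_bound {D : ℕ} (hD : 0 < D) (x r j : ℕ) (l : List Z) (hm : 0 < mu D x r ^ j) {α : ℝ}
    (hα : |α - ang D x| ≤ r / D) :
    ‖I * ev (exp (α * I)) l‖ ≤ nrm (ndif j l) * D ^ j / mu D x r ^ j := by
  have hD' : (0 : ℝ) < D := by exact_mod_cast hD
  have hm' : (0 : ℝ) < (mu D x r : ℝ) ^ j := by exact_mod_cast hm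
  have h1 := norm_ev_le (norm_exp_ofReal_mul_I α).le (ndif j l)
  rw [ndif_spec, norm_mul, norm_pow] at h1
  have h2 : ((mu D x r : ℝ) / D) ^ j ≤ ‖1 - exp (α * I)‖ ^ j :=
    pow_le_pow_left₀ (by positivity) (mu_le hD x r hα) j
  rw [norm_mul, norm_I, one_mul, le_div_iff₀ hm', ← div_le_iff₀ (by positivity), mul_div_assoc,
    ← div_pow, mul_comm]
  exact (mul_le_mul_of_nonneg_right h2 (norm_nonneg _)).trans h1

theorem arc_spec {D Oc L sl : ℕ} (hD : 0 < D) {A B : List Z} (hA : A.length + 4 ≤ L)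
    (hB : B.length + 4 ≤ L) (fA : fit Oc L A = true) (fB : fit Oc L B = true)
    (fA1 : fit Oc L (wt A).1 = true) {x r k j : ℕ}
    (h : arcOk D Oc L sl (off Oc A) (off Oc (wt A).1) (off Oc B) (wt (wt A).1).1 (wt B).1
      x r k j = true)
    {α t : ℝ} (hα : |α - ang D x| ≤ r / D) (ht : |t| ≤ 1) {g : ℂ}
    (hg : ‖g - (ev (exp (α * I)) A + t * ev (exp (α * I)) B)‖ ≤ sl) :
    0 < ((1 - I) ^ k * g).re := by
  have hD' : (0 : ℝ) < D := by exact_mod_cast hD
  have hd : (0 : ℝ) < D * D + x * x := by positivity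
  simp only [arcOk, Bool.and_eq_true, Nat.blt_eq] at h
  obtain ⟨hx, h⟩ := h
  have hm : 0 < mu D x r ^ j := by
    rcases Nat.eq_zero_or_pos (mu D x r ^ j) with h0 | h0
    · rw [h0] at h; simp at h
    · exact h0
  have hm' : (0 : ℝ) < (mu D x r : ℝ) ^ j := by exact_mod_cast hm
  obtain ⟨H, hH, hH'⟩ : ∃ H : ℕ, (r * r * nrm (ndif j (wt (wt A).1).1) + 1) / 2 = H ∧
      r * r * nrm (ndif j (wt (wt A).1).1) ≤ 2 * H := ⟨_, rfl, by omega⟩
  rw [hH] at h
  have hH2 : (r : ℝ) * r * nrm (ndif j (wt (wt A).1).1) / 2 ≤ H := by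
    have := (Nat.cast_le (α := ℝ)).2 hH'
    push_cast at this; linarith
  have h' := (Nat.cast_lt (α := ℝ)).2 h
  push_cast at h'
  rw [val_zabs, val_zabs] at h'
  set w : ℂ := (1 - I) ^ k with hw
  have hν : ‖w‖ ≤ (1415 / 1000) ^ k := norm_dir k
  set ν : ℝ := (1415 / 1000) ^ k with hν'
  set a0 := ang D x
  have hin : ∀ s ∈ uIcc a0 α, |s - a0| ≤ r / D := fun s hs =>
    (abs_sub_left_of_mem_uIcc hs).trans hα
  set K2 : ℝ := nrm (ndif j (wt (wt A).1).1) * D ^ j / mu D x r ^ j with hK2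
  set KB : ℝ := nrm (ndif j (wt B).1) * D ^ j / mu D x r ^ j with hKB
  have e1 := mvt2 (a := a0) (b := α) (K := K2) (hasDerivAt_ev A)
    (fun s => (hasDerivAt_ev (wt A).1 s).const_mul I) (fun s hs => by
      rw [norm_mul, norm_I, one_mul]; exact ndif_bound hD x r j _ hm (hin s hs))
  have e2 := mvt (a := a0) (b := α) (K := KB) (fun s _ => hasDerivAt_ev B s)
    (fun s hs => ndif_bound hD x r j _ hm (hin s hs))
  have hL : ∀ l : List Z, l.length + 4 ≤ L → fit Oc L l = true →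
      ‖cv (rot k (evz D Oc x (off Oc l))) / ((D * D + x * x : ℝ) : ℂ) -
      w * ev (exp (a0 * I)) l‖ ≤ ν * L := fun l hl hf => by
    have h1 := evz_spec hD hx hl hf
    have hdc : ((D * D + x * x : ℝ) : ℂ) ≠ 0 := by exact_mod_cast hd.ne'
    have : cv (rot k (evz D Oc x (off Oc l))) / ((D * D + x * x : ℝ) : ℂ) -
        w * ev (exp (a0 * I)) l =
        w * (cv (evz D Oc x (off Oc l)) - ((D * D + x * x : ℝ) : ℂ) * ev (exp (a0 * I)) l) /
          ((D * D + x * x : ℝ) : ℂ) := by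
      rw [cv_rot, ← hw]
      generalize ((D * D + x * x : ℝ) : ℂ) = d at hdc ⊢
      field_simp
    rw [this, norm_div, norm_mul, norm_real, Real.norm_of_nonneg hd.le, div_le_iff₀ hd]
    calc _ ≤ ν * ((D * D + x * x) * L) := by gcongr
      _ = _ := by ring
  have f1 := (abs_re_le_norm _).trans (hL A hA fA)
  have f2 := (abs_re_le_norm _).trans (hL B hB fB)
  have f3 := (abs_im_le_norm _).trans (hL (wt A).1 (by rw [(wt_len A).2]; exact hA) fA1)
  simp only [sub_re, sub_im, div_ofReal_re, div_ofReal_im, cv, add_re, ofReal_re, mul_re, I_re,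
    mul_zero, ofReal_im, I_im, mul_one, sub_self, add_zero, add_im, mul_im, zero_add] at f1 f2 f3
  set ρ : ℝ := r / D with hρ
  have hρ0 : 0 ≤ ρ := by positivity
  have hK2' : 0 ≤ K2 := by positivity
  have hKB' : 0 ≤ KB := by positivity
  set EA := ev (exp (a0 * I)) A
  set EB := ev (exp (a0 * I)) B
  set E1 := ev (exp (a0 * I)) (wt A).1
  have g1 : ‖w * (g - (EA + (α - a0 : ℝ) * (I * E1) + t * EB))‖ ≤
      ν * (sl + K2 / 2 * ρ * ρ + KB * ρ) := by
    rw [norm_mul]
    refine mul_le_mul hν ?_ (norm_nonneg _) (by positivity)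
    have e3 : ‖(t : ℂ) * (ev (exp (α * I)) B - EB)‖ ≤ KB * ρ := by
      rw [norm_mul, norm_real]
      calc _ ≤ 1 * (KB * ρ) :=
          mul_le_mul ht (e2.trans (mul_le_mul_of_nonneg_left hα hKB')) (norm_nonneg _) zero_le_one
        _ = _ := one_mul _
    have e4 : K2 / 2 * |α - a0| * |α - a0| ≤ K2 / 2 * ρ * ρ := by gcongr
    refine le_of_eq_of_le (congrArg _ ?_) (norm_add_le_of_le (norm_add_le_of_le hg
      (e1.trans e4)) e3)
    ring
  have g2 := (abs_le.1 ((abs_re_le_norm _).trans g1)).1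
  have g3 : (w * (g - (EA + (α - a0 : ℝ) * (I * E1) + t * EB))).re =
      (w * g).re - ((w.re * EA.re - w.im * EA.im) - (α - a0) * (w.re * E1.im + w.im * E1.re) +
        t * (w.re * EB.re - w.im * EB.im)) := by
    simp only [mul_re, mul_im, sub_re, sub_im, add_re, add_im, ofReal_re, ofReal_im, I_re, I_im]
    ring
  rw [g3] at g2
  set d : ℝ := D * D + x * x
  set va := val (rot k (evz D Oc x (off Oc A))).1 with hva
  set vb := val (rot k (evz D Oc x (off Oc B))).1
  set v1 := val (rot k (evz D Oc x (off Oc (wt A).1))).2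
  have g4 : |(α - a0) * (w.re * E1.im + w.im * E1.re)| ≤ ρ * (|v1| / d + ν * L) := by
    rw [abs_mul]
    refine mul_le_mul hα ?_ (abs_nonneg _) hρ0
    have := abs_sub_abs_le_abs_sub (w.re * E1.im + w.im * E1.re) (v1 / d)
    rw [abs_sub_comm, abs_div, abs_of_pos hd] at this
    linarith
  have g5 : |t * (w.re * EB.re - w.im * EB.im)| ≤ 1 * (|vb| / d + ν * L) := by
    rw [abs_mul]
    refine mul_le_mul ht ?_ (abs_nonneg _) zero_le_one
    have := abs_sub_abs_le_abs_sub (w.re * EB.re - w.im * EB.im) (vb / d)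
    rw [abs_sub_comm _ (vb / d), abs_div, abs_of_pos hd] at this
    linarith
  have g6 : ν * (sl + K2 / 2 * ρ * ρ + KB * ρ) + ρ * (|v1| / d + ν * L) + (|vb| / d + ν * L) + ν * L <
      va / d := by
    have hT : (0 : ℝ) < 1000 ^ k * (mu D x r : ℝ) ^ j * D * D * d := by positivity
    refine lt_of_mul_lt_mul_left ?_ hT.le
    have e5 : 1000 ^ k * (mu D x r : ℝ) ^ j * D * D * d * (va / d) =
        1000 ^ k * (mu D x r : ℝ) ^ j * D * D * (rot k (evz D Oc x (off Oc A))).1.1 -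
          1000 ^ k * (mu D x r : ℝ) ^ j * D * (D * (rot k (evz D Oc x (off Oc A))).1.2) := by
      rw [hva, val]; field_simp
    have e6 : 1000 ^ k * (mu D x r : ℝ) ^ j * D * D * d *
        (ν * (sl + K2 / 2 * ρ * ρ + KB * ρ) + ρ * (|v1| / d + ν * L) + (|vb| / d + ν * L) + ν * L) =
        1000 ^ k * (mu D x r : ℝ) ^ j * D * (D * |vb| + r * |v1|) +
          1415 ^ k * d * (r * r * nrm (ndif j (wt (wt A).1).1) / 2 * D ^ j +
            r * D * nrm (ndif j (wt B).1) * D ^ j +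
            mu D x r ^ j * D * (D * sl + 2 * D * L + r * L)) := by
      rw [hK2, hKB, hρ, hν', div_pow]; field_simp; ring
    have e7 : 1415 ^ k * d * (r * r * nrm (ndif j (wt (wt A).1).1) / 2 * D ^ j) ≤
        1415 ^ k * d * ((H : ℝ) * D ^ j) := by gcongr
    rw [e5, e6]; linarith
  linarith [(abs_le.1 g4).2, (abs_le.1 g5).1, (abs_le.1 f1).2]

theorem ang_mono {D x x' : ℕ} (h : x ≤ x') : ang D x ≤ ang D x' := by
  unfold ang
  gcongr

theorem ang_gap {D : ℕ} (hD : 0 < D) {x x' : ℕ} (h : x ≤ x') :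
    ang D x' - ang D x ≤ 2 * D * (x' - x) / (D * D + x * x) := by
  have hD' : (0 : ℝ) < D := by exact_mod_cast hD
  have hx : (x : ℝ) / D ≤ x' / D := by gcongr
  have := (convex_Icc ((x : ℝ) / D) (x' / D)).image_sub_le_mul_sub_of_deriv_le
    (f := Real.arctan) Real.continuous_arctan.continuousOn
    Real.differentiable_arctan.differentiableOn (C := 1 / (1 + (x / D) ^ 2)) (fun s hs => by
      rw [Real.deriv_arctan]
      have h1 := (interior_subset hs).1
      have h2 : (0 : ℝ) ≤ x / D := by positivity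
      have h3 := pow_le_pow_left₀ h2 h1 2
      exact one_div_le_one_div_of_le (by positivity) (by linarith)) _ (left_mem_Icc.2 hx) _ (right_mem_Icc.2 hx) hx
  unfold ang
  calc _ ≤ 2 * (1 / (1 + ((x : ℝ) / D) ^ 2) * (x' / D - x / D)) := by linarith
    _ = _ := by field_simp

noncomputable def chain (D : ℕ) (ok : ℕ → ℕ → ℕ → ℕ → Bool) (fin : ℕ → ℕ → ℕ → Bool)
    (l : List (ℕ × ℕ × ℕ × ℕ)) : ℕ → ℕ → ℕ → Bool :=
  List.rec fin (fun c _ ih x r k => Nat.ble x c.1 &&
    Nat.ble (2 * D * D * (c.1 - x)) ((r + c.2.1) * (D * D + x * x)) &&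
    Nat.ble c.2.2.1 (k + 1) && Nat.ble k (c.2.2.1 + 1) && ok c.1 c.2.1 c.2.2.1 c.2.2.2 &&
    ih c.1 c.2.1 c.2.2.1) l

theorem chain_spec {D : ℕ} (hD : 0 < D) {ok : ℕ → ℕ → ℕ → ℕ → Bool} {fin : ℕ → ℕ → ℕ → Bool}
    {g : ℝ → ℂ} {T : ℝ} {Q : ℕ → Prop}
    (hok : ∀ x r k j, ok x r k j = true → ∀ α ∈ Icc 0 T, |α - ang D x| ≤ r / D →
      0 < ((1 - I) ^ k * g α).re)
    (hfin : ∀ x r k, fin x r k = true → ang D x ≤ T ∧ T ≤ ang D x + r / D ∧ Q k)
    (l : List (ℕ × ℕ × ℕ × ℕ)) : ∀ x r k, chain D ok fin l x r k = true → ang D x ≤ T ∧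
      (Inv g (ang D x) k → (∀ α ∈ Icc 0 T, |α - ang D x| ≤ r / D → 0 < ((1 - I) ^ k * g α).re) →
        ∃ k', Q k' ∧ Inv g T k') := by
  have hD' : (0 : ℝ) < D := by exact_mod_cast hD
  have h0 : ∀ x, 0 ≤ ang D x := fun x => by
    have := ang_mono (D := D) (Nat.zero_le x)
    simpa [ang] using this
  induction l with
  | nil =>
    intro x r k h
    obtain ⟨h1, h2, h3⟩ := hfin x r k h
    refine ⟨h1, fun hi hp => ⟨k, h3, hi.step (h0 x) h1 k.le_succ k.le_succ fun α hα =>
      hp α ⟨(h0 x).trans hα.1, hα.2⟩ ?_⟩⟩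
    rw [abs_of_nonneg (sub_nonneg.2 hα.1)]; linarith [hα.2]
  | cons c l ih =>
    intro x r k h
    have e : chain D ok fin (c :: l) x r k = (Nat.ble x c.1 &&
      Nat.ble (2 * D * D * (c.1 - x)) ((r + c.2.1) * (D * D + x * x)) &&
      Nat.ble c.2.2.1 (k + 1) && Nat.ble k (c.2.2.1 + 1) && ok c.1 c.2.1 c.2.2.1 c.2.2.2 &&
      chain D ok fin l c.1 c.2.1 c.2.2.1) := rfl
    rw [e] at h
    simp only [Bool.and_eq_true, Nat.ble_eq] at h
    obtain ⟨⟨⟨⟨⟨h1, h2⟩, h3⟩, h4⟩, h5⟩, h6⟩ := h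
    obtain ⟨h7, h8⟩ := ih _ _ _ h6
    have hm := ang_mono (D := D) h1
    refine ⟨hm.trans h7, fun hi hp => h8 ?_ (hok _ _ _ _ h5)⟩
    have hg : ang D c.1 - ang D x ≤ r / D + c.2.1 / D := by
      refine (ang_gap hD h1).trans ?_
      have h2' := (Nat.cast_le (α := ℝ)).2 h2
      push_cast [Nat.cast_sub h1] at h2'
      rw [← add_div, div_le_div_iff₀ (by positivity) hD']
      linarith
    have hr : (0 : ℝ) ≤ r / D := by positivity
    set β := min (ang D c.1) (ang D x + r / D) with hβ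
    have b1 : ang D x ≤ β := le_min hm (by linarith)
    have b2 : β ≤ ang D c.1 := min_le_left _ _
    have b3 : β ≤ ang D x + r / D := min_le_right _ _
    have b4 : ang D c.1 - c.2.1 / D ≤ β :=
      le_min (sub_le_self _ (by positivity)) (by linarith)
    refine (hi.step (h0 x) b1 k.le_succ k.le_succ fun α hα =>
      hp α ⟨(h0 x).trans hα.1, hα.2.trans (b2.trans h7)⟩ ?_).step ((h0 x).trans b1) b2 h3 h4
      fun α hα => hok _ _ _ _ h5 α ⟨((h0 x).trans b1).trans hα.1, hα.2.trans h7⟩ ?_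
    · rw [abs_of_nonneg (sub_nonneg.2 hα.1)]; linarith [hα.2]
    · rw [abs_of_nonpos (sub_nonpos.2 hα.2)]; linarith [hα.1]

noncomputable def frcL {β : Type} (l : List Z) : (List Z → β) → β :=
  List.rec (fun k => k []) (fun c _ ih k => frc c.1 fun p => frc c.2 fun n =>
    ih fun t => k ((p, n) :: t)) l

noncomputable def frcN {β : Type} (l : List ℕ) : (List ℕ → β) → β :=
  List.rec (fun k => k []) (fun c _ ih k => frc c fun p => ih fun t => k (p :: t)) l

theorem frcL_eq {β : Type} (l : List Z) : ∀ k : List Z → β, frcL l k = k l := by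
  induction l with
  | nil => intro k; rfl
  | cons c l ih =>
    intro k
    have : frcL (c :: l) k = frc c.1 fun p => frc c.2 fun n => frcL l fun t => k ((p, n) :: t) := rfl
    rw [this, frc_eq, frc_eq, ih]

theorem frcN_eq {β : Type} (l : List ℕ) : ∀ k : List ℕ → β, frcN l k = k l := by
  induction l with
  | nil => intro k; rfl
  | cons c l ih =>
    intro k
    have : frcN (c :: l) k = frc c fun p => frcN l fun t => k (p :: t) := rfl
    rw [this, frc_eq, ih]

noncomputable def chk (D Oc L sl : ℕ) (fin : ℕ → ℕ → ℕ → Bool) (arcs : List (ℕ × ℕ × ℕ × ℕ))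
    (A B : List Z) : Bool :=
  frcL A fun A => frcL B fun B => frcL (wt A).1 fun A1 => frcL (wt A1).1 fun A2 =>
    frcL (wt B).1 fun B1 => frcN (off Oc A) fun A' => frcN (off Oc A1) fun A1' =>
      frcN (off Oc B) fun B' => fit Oc L A && fit Oc L B && fit Oc L A1 &&
        chain D (arcOk D Oc L sl A' A1' B' A2 B1) fin arcs 0 0 0

/-- soundness of the whole check -/
theorem check_spec {D Oc L sl : ℕ} (hD : 0 < D) {A B : List Z} (hA : A.length + 4 ≤ L)
    (hB : B.length + 4 ≤ L) {fin : ℕ → ℕ → ℕ → Bool} {l : List (ℕ × ℕ × ℕ × ℕ)} {g : ℝ → ℂ}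
    {T : ℝ} {Q : ℕ → Prop}
    (hfin : ∀ x r k, fin x r k = true → ang D x ≤ T ∧ T ≤ ang D x + r / D ∧ Q k)
    (h : chk D Oc L sl fin l A B = true)
    (hg : ∀ α ∈ Icc 0 T, ∃ t : ℝ, |t| ≤ 1 ∧
      ‖g α - (ev (exp (α * I)) A + t * ev (exp (α * I)) B)‖ ≤ sl)
    (h0 : 0 < (g 0).re) : ∃ k, Q k ∧ Inv g T k := by
  simp only [chk, frcL_eq, frcN_eq, Bool.and_eq_true] at h
  obtain ⟨⟨⟨fA, fB⟩, fA1⟩, h⟩ := h
  have ha : ang D 0 = 0 := by simp [ang]
  refine (chain_spec hD (fun x r k j hk α hα hr => ?_) hfin l 0 0 0 h).2 ?_ fun α _ hr => ?_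
  · obtain ⟨t, ht, hg⟩ := hg α hα
    exact arc_spec hD hA hB fA fB fA1 hk hr ht hg
  · rw [ha]; exact Inv.zero fun h1 => by simp [h1] at h0
  · have : α = 0 := by simpa [ha] using hr
    simpa [this] using h0

end Pool.Agent.MP_39ed1d_co.H76
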