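import Pool.Agent.MP_39ed1d_co.H76.Gen

/-! Covering an interval of cosines by certified boxes. -/

namespace Pool.Agent.MP_39ed1d_co.H76

/-- every angle whose scaled cosine lies in `[a,b)` has a good radius -/
def Cov (a b : ℕ) : Prop := ∀ φ : ℝ, 0 < Real.sin φ → a ≤ (17592186044416 : ℕ) * Real.cos φ →
  (17592186044416 : ℕ) * Real.cos φ < b → ∃ R, Good (Real.cos φ) R

theorem Cov.trans {a b c : ℕ} (h1 : Cov a b) (h2 : Cov b c) : Cov a c := fun φ h0 ha hc =>
  (lt_or_ge ((17592186044416 : ℕ) * Real.cos φ) b).elim (h1 φ h0 ha) fun h => h2 φ h0 h hc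

theorem cov_of {a b : ℕ} {l : List ((ℕ × ℕ × ℕ × ℕ × ℕ × ℕ) × List (ℕ × ℕ × ℕ × ℕ))}
    (h : cover 65536 1208925819614629174706176 68719476736 17592186044416 1099511627776 b l a =
      true) : Cov a b := fun _ h0 ha hb =>
  cover_spec (by norm_num) (by norm_num) (by norm_num) (by norm_num) h0 hb l a h ha

end Pool.Agent.MP_39ed1d_co.H76
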