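import Mathlib

/-! Tracking a continuous argument through half-planes. -/

namespace Pool.Agent.MP_39ed1d_co.H76

open Set Complex

/-- `g` has no zero on `[0,b]` and its continuous argument ends near `k π / 4` -/
def Inv (g : ℝ → ℂ) (b : ℝ) (k : ℕ) : Prop :=
  (∀ α ∈ Icc 0 b, g α ≠ 0) ∧ ∀ A : ℝ → ℝ, ContinuousOn A (Icc 0 b) → A 0 = 0 →
    (∀ α ∈ Icc 0 b, g α = ‖g α‖ * exp (A α * I)) → |A b - k * (Real.pi / 4)| < Real.pi / 2

theorem one_sub_I : (1 - I : ℂ) = (√2 : ℝ) * exp ((-(Real.pi / 4) : ℝ) * I) := by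
  rw [exp_mul_I, ← ofReal_cos, ← ofReal_sin, Real.cos_neg, Real.sin_neg, Real.cos_pi_div_four,
    Real.sin_pi_div_four]
  have h : ((√2 : ℝ) : ℂ) * (√2 : ℝ) = 2 := by
    rw [← ofReal_mul, Real.mul_self_sqrt (by norm_num)]; norm_num
  push_cast
  linear_combination (-(1 / 2) + I / 2) * h

theorem re_dir (k : ℕ) (r A : ℝ) :
    ((1 - I) ^ k * (r * exp (A * I))).re = √2 ^ k * r * Real.cos (A - k * (Real.pi / 4)) := by
  have : (1 - I) ^ k * (r * exp (A * I)) =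
      ((√2 ^ k * r : ℝ) : ℂ) * exp ((A - k * (Real.pi / 4) : ℝ) * I) := by
    rw [one_sub_I, mul_pow, ← exp_nat_mul]
    push_cast
    rw [show (A - k * (Real.pi / 4) : ℂ) * I = k * (-(Real.pi / 4) * I) + A * I by ring, exp_add]
    ring
  rw [this, re_ofReal_mul, exp_ofReal_mul_I_re]

theorem norm_dir (k : ℕ) : ‖(1 - I : ℂ) ^ k‖ ≤ (1415 / 1000) ^ k := by
  rw [norm_pow, one_sub_I, norm_mul, norm_exp_ofReal_mul_I, mul_one, norm_real,
    Real.norm_of_nonneg (Real.sqrt_nonneg _)]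
  gcongr
  rw [Real.sqrt_le_left (by norm_num)]; norm_num

theorem abs_lt_of_cos_pos {x : ℝ} (h : 0 < Real.cos x) (h2 : |x| < 3 * (Real.pi / 2)) :
    |x| < Real.pi / 2 := by
  by_contra hc
  rw [← Real.cos_abs] at h
  exact absurd (Real.cos_nonpos_of_pi_div_two_le_of_le (not_lt.1 hc) (by linarith)) (not_le.2 h)

theorem Inv.step {g : ℝ → ℂ} {b b' : ℝ} {k k' : ℕ} (h : Inv g b k) (h0 : 0 ≤ b) (hb : b ≤ b')
    (hk : k' ≤ k + 1) (hk' : k ≤ k' + 1) (hp : ∀ α ∈ Icc b b', 0 < ((1 - I) ^ k' * g α).re) :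
    Inv g b' k' := by
  have hsub : Icc 0 b ⊆ Icc 0 b' := Icc_subset_Icc_right hb
  refine ⟨fun α hα => ?_, fun A hA hA0 hg => ?_⟩
  · rcases le_total α b with h1 | h1
    · exact h.1 α ⟨hα.1, h1⟩
    · intro h2
      have := hp α ⟨h1, hα.2⟩
      simp [h2] at this
  have hpi := Real.pi_pos
  have hc : ∀ α ∈ Icc b b', 0 < Real.cos (A α - k' * (Real.pi / 4)) := fun α hα => by
    have h1 := hp α hα
    rw [hg α ⟨h0.trans hα.1, hα.2⟩, re_dir] at h1
    exact pos_of_mul_pos_right h1 (by positivity)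
  have h1 := h.2 A (hA.mono hsub) hA0 fun α hα => hg α (hsub hα)
  have h2 : |A b - k' * (Real.pi / 4)| < Real.pi / 2 := by
    refine abs_lt_of_cos_pos (hc b ⟨le_rfl, hb⟩) ?_
    have e1 : (k' : ℝ) ≤ k + 1 := by exact_mod_cast hk
    have e2 : (k : ℝ) ≤ k' + 1 := by exact_mod_cast hk'
    rw [abs_lt] at h1 ⊢
    constructor <;> nlinarith [h1.1, h1.2]
  by_contra hn
  have hcont : ContinuousOn (fun α => |A α - k' * (Real.pi / 4)|) (Icc b b') :=
    ((hA.mono (Icc_subset_Icc_left h0)).sub continuousOn_const).abs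
  obtain ⟨α, hα, he⟩ := intermediate_value_Icc hb hcont ⟨h2.le, not_lt.1 hn⟩
  have h3 := hc α hα
  simp only at he
  rw [← Real.cos_abs, he, Real.cos_pi_div_two] at h3
  exact lt_irrefl _ h3

theorem Inv.zero {g : ℝ → ℂ} (h : g 0 ≠ 0) : Inv g 0 0 := by
  refine ⟨fun α hα => by rwa [le_antisymm hα.2 hα.1], fun A _ hA _ => ?_⟩
  simp [hA, Real.pi_pos]

theorem Inv.scale {g : ℝ → ℂ} {b c s : ℝ} {k : ℕ} (hc : 0 < c) (hs : 0 < s)
    (h : Inv (fun α => s * g (c * α)) b k) : Inv g (c * b) k := by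
  have hm : ∀ α ∈ Icc 0 b, c * α ∈ Icc 0 (c * b) := fun α hα =>
    ⟨mul_nonneg hc.le hα.1, mul_le_mul_of_nonneg_left hα.2 hc.le⟩
  refine ⟨fun α hα h0 => ?_, fun A hA hA0 hg => ?_⟩
  · refine h.1 (α / c) ⟨div_nonneg hα.1 hc.le, (div_le_iff₀' hc).2 hα.2⟩ ?_
    simp only [mul_div_cancel₀ α hc.ne', h0, mul_zero]
  · refine h.2 (fun α => A (c * α)) (hA.comp (by fun_prop) hm) (by simpa using hA0)
      fun α hα => ?_
    rw [norm_mul, norm_real, Real.norm_of_nonneg hs.le]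
    push_cast
    rw [mul_assoc, ← hg _ (hm α hα)]

end Pool.Agent.MP_39ed1d_co.H76
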