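import Pool.Agent.MP_39ed1d_co.H76.Wind
import Pool.Agent.MP_39ed1d_co.H76.Lift

/-! The symmetric product series and the objects of the small angle analysis. -/

namespace Pool.Agent.MP_39ed1d_co.H76

open Complex

/-- `uu (cos φ) N = sin (N φ) / sin φ` -/
noncomputable def uu (c : ℝ) : ℕ → ℝ
  | 0 => 0
  | 1 => 1
  | n + 2 => 2 * c * uu c (n + 1) - uu c n

/-- the product of the deformed exponential with its mirror image -/
noncomputable def GG (c : ℝ) (τ : ℂ) : ℂ := ∑' N : ℕ, (τ * uu c N) ^ N / N.factorial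

/-- `GG c` winds once around the upper half circle of radius `R` and has no zero on `[0,R]` -/
def Good (c R : ℝ) : Prop := 0 < R ∧
  (∃ k : ℕ, 2 ≤ k ∧ k ≤ 14 ∧ Inv (fun α => GG c (R * exp (α * I))) Real.pi k) ∧
  ∀ x : ℝ, 0 ≤ x → x ≤ R → GG c x ≠ 0

/-- the radius used for the small angle `v ^ 3 / 2` -/
noncomputable def RR (v : ℝ) : ℝ :=
  Real.exp (21 / 20 * v ^ 2 - 1) * (Real.sin (v ^ 3 / 2) / (v ^ 3 / 2))

/-- the limiting profile -/
noncomputable def om (s : ℝ) : ℝ := Real.exp (21 / 20 * s - s ^ 3 / 24)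

/-- the model coefficients; the value at `0` is `0` -/
noncomputable def ab (v : ℝ) (N : ℕ) : ℝ := om (N * v ^ 2) / √(2 * Real.pi * N)

/-- the model series -/
noncomputable def TT (v α : ℝ) : ℂ := ∑' N : ℕ, (ab v N : ℂ) * exp (N * (α * I))

theorem uu_zero (c : ℝ) : uu c 0 = 0 := rfl
theorem uu_one (c : ℝ) : uu c 1 = 1 := rfl
theorem uu_succ (c : ℝ) (n : ℕ) : uu c (n + 2) = 2 * c * uu c (n + 1) - uu c n := rfl

theorem uu_cos (φ : ℝ) (n : ℕ) : uu (Real.cos φ) n * Real.sin φ = Real.sin (n * φ) := by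
  induction n using Nat.twoStepInduction with
  | zero => simp [uu_zero]
  | one => simp [uu_one]
  | more n h1 h2 =>
    have e1 : ((n + 2 : ℕ) : ℝ) * φ = ((n + 1 : ℕ) : ℝ) * φ + φ := by push_cast; ring
    have e2 : (n : ℝ) * φ = ((n + 1 : ℕ) : ℝ) * φ - φ := by push_cast; ring
    rw [e2, Real.sin_sub] at h1
    rw [uu_succ, e1, Real.sin_add]
    linear_combination (2 * Real.cos φ) * h2 - h1

theorem abs_uu_le {φ : ℝ} (h : 0 < Real.sin φ) (n : ℕ) : |uu (Real.cos φ) n| ≤ 1 / Real.sin φ := by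
  rw [le_div_iff₀ h, ← abs_of_pos h, ← abs_mul, uu_cos]
  exact Real.abs_sin_le_one _

theorem norm_GG_term (c : ℝ) (τ : ℂ) (N : ℕ) :
    ‖(τ * uu c N) ^ N / N.factorial‖ = (‖τ‖ * |uu c N|) ^ N / N.factorial := by
  rw [norm_div, norm_pow, norm_mul, norm_real, Complex.norm_natCast, Real.norm_eq_abs]

theorem summable_GG {φ : ℝ} (h : 0 < Real.sin φ) (τ : ℂ) :
    Summable fun N : ℕ => ‖(τ * uu (Real.cos φ) N) ^ N / N.factorial‖ := by
  refine Summable.of_nonneg_of_le (fun _ => norm_nonneg _) (fun N => ?_)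
    (Real.summable_pow_div_factorial (‖τ‖ * (1 / Real.sin φ)))
  rw [norm_GG_term]
  gcongr
  exact abs_uu_le h N

theorem om_pos (s : ℝ) : 0 < om s := Real.exp_pos _

theorem ab_zero (v : ℝ) : ab v 0 = 0 := by simp [ab]

theorem ab_nonneg (v : ℝ) (N : ℕ) : 0 ≤ ab v N := div_nonneg (om_pos _).le (Real.sqrt_nonneg _)

theorem om_le {s : ℝ} (hs : 0 ≤ s) : om s ≤ Real.exp (6 - s) := by
  refine Real.exp_le_exp.2 ?_
  nlinarith [mul_nonneg (sq_nonneg (s - 81 / 20)) (by linarith : 0 ≤ s + 81 / 10)]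

theorem summable_ab {v : ℝ} (hv : 0 < v) : Summable (ab v) := by
  have h1 : Real.exp (-v ^ 2) < 1 := Real.exp_lt_one_iff.2 (by have := pow_pos hv 2; linarith)
  refine Summable.of_nonneg_of_le (ab_nonneg v) (fun N => ?_)
    ((summable_geometric_of_lt_one (Real.exp_pos _).le h1).mul_left (Real.exp 6))
  rcases Nat.eq_zero_or_pos N with rfl | hN
  · rw [ab_zero]; positivity
  have hN' : (1 : ℝ) ≤ N := by exact_mod_cast hN
  have h2 : 1 ≤ √(2 * Real.pi * N) := Real.one_le_sqrt.2 (by nlinarith [Real.pi_gt_three])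
  refine (div_le_self (om_pos _).le h2).trans ((om_le (by positivity)).trans (le_of_eq ?_))
  rw [← Real.exp_nat_mul, ← Real.exp_add]; congr 1; ring

end Pool.Agent.MP_39ed1d_co.H76
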