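import Pool.Agent.MP_39ed1d_co.H76.Chk
import Pool.Agent.MP_39ed1d_co.H76.Defs

/-! A verified generator of coefficient enclosures on a parameter box. -/

namespace Pool.Agent.MP_39ed1d_co.H76

open Set Complex

structure St where
  n : ℕ
  xp : ℕ
  xn : ℕ
  up : ℕ
  un : ℕ
  yp : ℕ
  yn : ℕ
  vp : ℕ
  vn : ℕ
  d : ℕ
  e : ℕ
  den : ℕ

noncomputable def adv {β : Type} (C2 D2 Q P : ℕ) (s : St) (k : St → β) : β :=
  St.rec (fun n xp xn up un yp yn vp vn d e den =>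
    (fun a b a' b' d' => k ⟨Nat.succ n, Nat.sub a b, Nat.sub b a, xp, xn, Nat.sub a' b',
      Nat.sub b' a', yp, yn, d', Nat.add e d', Nat.mul den (Nat.mul P (Nat.succ (Nat.succ n)))⟩)
    (Nat.add (Nat.div (Nat.mul C2 xp) Q) un) (Nat.add (Nat.div (Nat.mul C2 xn) Q) up)
    (Nat.add (Nat.div (Nat.add (Nat.mul C2 yp) (Nat.mul D2 xp)) Q) vn)
    (Nat.add (Nat.div (Nat.add (Nat.mul C2 yn) (Nat.mul D2 xn)) Q) vp)
    (Nat.add d (Nat.add (Nat.div (Nat.mul D2 (Nat.add yp yn)) Q) 3))) s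

def sw (b : Bool) (p n : ℕ) : Z := cond b (n, p) (p, n)

noncomputable def big (S : ℕ) (s : St) : ℕ :=
  St.rec (fun n xp xn _ _ yp yn _ _ _ e den => Nat.succ (Nat.div (Nat.mul S
    (Nat.pow (Nat.add (Nat.add xp xn) (Nat.add (Nat.add yp yn) e)) (Nat.succ n))) den)) s

noncomputable def emit {β : Type} (S : ℕ) (s : St) (k : Z × Z → ℕ → β) : β :=
  St.rec (fun n xp xn _ _ yp yn _ _ _ _ den => (fun V => (fun a b a' b' g =>
    k (sw g a b, sw g a' b') (Nat.sub (big S s) (Nat.add (Nat.add (Nat.add a b) a') b')))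
    (Nat.div (Nat.mul (Nat.mul S xp) V) den) (Nat.div (Nat.mul (Nat.mul S xn) V) den)
    (Nat.div (Nat.mul (Nat.mul (Nat.mul S (Nat.succ n)) yp) V) den)
    (Nat.div (Nat.mul (Nat.mul (Nat.mul S (Nat.succ n)) yn) V) den)
    (Nat.blt 0 xn && Nat.beq (Nat.mod n 2) 1)) (Nat.pow (Nat.add xp xn) n)) s

noncomputable def run1 (S C2 D2 Q P m : ℕ) :
    St → List (Z × Z) → ℕ → (St → List (Z × Z) → ℕ → Bool) → Bool :=
  Nat.rec (fun s L sl k => k s L sl) (fun _ ih s L sl k => emit S s fun c w =>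
    frc (Nat.add sl w) fun sl' => adv C2 D2 Q P s fun s' => ih s' (c :: L) sl' k) m

noncomputable def run2 (S C2 D2 Q P m : ℕ) : St → ℕ → (St → ℕ → Bool) → Bool :=
  Nat.rec (fun s sl k => k s sl) (fun _ ih s sl k =>
    frc (Nat.add sl (big S s)) fun sl' => adv C2 D2 Q P s fun s' => ih s' sl' k) m

noncomputable def gen (S Q P C Dl x1 E1 a0 M M2 X : ℕ) (k : List (Z × Z) → ℕ → Bool) : Bool :=
  Nat.ble ((x1 + E1) ^ 2 * Q ^ 2 + X ^ 2 * P ^ 2 * (C + Dl) ^ 2) (X ^ 2 * P ^ 2 * Q ^ 2) &&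
  Nat.ble (2 * X) (M + M2 + 2) &&
  frc (2 * C) fun C2 => frc (2 * Dl) fun D2 =>
  run1 S C2 D2 Q P M ⟨0, x1, 0, 0, 0, 0, 0, 0, 0, E1, E1, P⟩ [((a0, 0), (0, 0))] 0 fun s L sl =>
    run2 S C2 D2 Q P M2 s sl fun s' sl' =>
      frc (sl' + (2 * S * (X * P) ^ (M + M2 + 1) / s'.den + 1)) fun sl'' => k L sl''

noncomputable def fstL (L : List (Z × Z)) : List Z := List.rec [] (fun c _ r => c.1 :: r) L
noncomputable def sndL (L : List (Z × Z)) : List Z := List.rec [] (fun c _ r => c.2 :: r) L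

theorem len_fstL (L : List (Z × Z)) : (fstL L).length = L.length ∧ (sndL L).length = L.length := by
  induction L with
  | nil => exact ⟨rfl, rfl⟩
  | cons c L ih => exact ⟨congrArg (· + 1) ih.1, congrArg (· + 1) ih.2⟩

theorem val_sub (a b : ℕ) : val (a - b, b - a) = val (a, b) := by
  simp only [val]
  rcases le_total a b with h | h
  · rw [Nat.sub_eq_zero_of_le h, Nat.cast_sub h]; ring
  · rw [Nat.sub_eq_zero_of_le h, Nat.cast_sub h]; ring

theorem val_sw (b : Bool) (p n : ℕ) : val (sw b p n) = cond b (-1) 1 * val (p, n) := by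
  cases b <;> simp [sw, val]

/-- the invariant of the recurrence -/
structure Jv (P : ℕ) (X : ℕ → ℝ) (t : ℝ) (w : ℂ) (s : St) : Prop where
  h1 : |X (s.n + 1) - (val (s.xp, s.xn) + t * val (s.yp, s.yn))| ≤ s.e
  h2 : ‖((X (s.n + 1) - (val (s.xp, s.xn) + t * val (s.yp, s.yn)) : ℝ) : ℂ) -
    w * ((X s.n - (val (s.up, s.un) + t * val (s.vp, s.vn)) : ℝ) : ℂ)‖ ≤ s.d
  h3 : s.xp = 0 ∨ s.xn = 0
  h4 : s.den = P ^ (s.n + 1) * (s.n + 1).factorial

theorem div_pair (a b d : ℕ) (hd : 0 < d) :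
    ∃ r : ℝ, |r| ≤ 1 ∧ ((a / d : ℕ) : ℝ) - ((b / d : ℕ) : ℝ) = ((a : ℝ) - b) / d + r := by
  refine ⟨((a / d : ℕ) - (a : ℝ) / d) - ((b / d : ℕ) - (b : ℝ) / d), ?_, by ring⟩
  have := div_err a d hd
  have := div_err b d hd
  rw [abs_le]; constructor <;> linarith

theorem adv_spec {β : Type} {C Dl Q P : ℕ} (hQ : 0 < Q) {X : ℕ → ℝ} {t : ℝ} (ht : |t| ≤ 1)
    {w w' : ℂ} (hX : ∀ n, X (n + 2) = 2 * ((C + t * Dl) / Q) * X (n + 1) - X n)
    (hw : ‖w‖ = 1) (hww : w * w' = 1) (hs : w + w' = ((2 * ((C + t * Dl) / Q) : ℝ) : ℂ))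
    {s : St} (h : Jv P X t w s) (k : St → β) :
    ∃ s', adv (2 * C) (2 * Dl) Q P s k = k s' ∧ Jv P X t w s' ∧ s'.n = s.n + 1 := by
  have hQ' : (0 : ℝ) < Q := by exact_mod_cast hQ
  have hw' : ‖w'‖ = 1 := by
    have := congrArg norm hww
    rwa [norm_mul, hw, one_mul, norm_one] at this
  refine ⟨⟨s.n + 1, 2 * C * s.xp / Q + s.un - (2 * C * s.xn / Q + s.up),
    2 * C * s.xn / Q + s.up - (2 * C * s.xp / Q + s.un), s.xp, s.xn,
    (2 * C * s.yp + 2 * Dl * s.xp) / Q + s.vn - ((2 * C * s.yn + 2 * Dl * s.xn) / Q + s.vp),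
    (2 * C * s.yn + 2 * Dl * s.xn) / Q + s.vp - ((2 * C * s.yp + 2 * Dl * s.xp) / Q + s.vn),
    s.yp, s.yn, s.d + (2 * Dl * (s.yp + s.yn) / Q + 3),
    s.e + (s.d + (2 * Dl * (s.yp + s.yn) / Q + 3)), s.den * (P * (s.n + 1 + 1))⟩,
    by cases s; rfl, ?_, rfl⟩
  obtain ⟨r1, hr1, e1⟩ := div_pair (2 * C * s.xp) (2 * C * s.xn) Q hQ
  obtain ⟨r2, hr2, e2⟩ := div_pair (2 * C * s.yp + 2 * Dl * s.xp) (2 * C * s.yn + 2 * Dl * s.xn) Q hQ
  set x := val (s.xp, s.xn) with hx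
  set y := val (s.yp, s.yn) with hy
  set E1 := X (s.n + 1) - (x + t * y) with hE1
  set E0 := X s.n - (val (s.up, s.un) + t * val (s.vp, s.vn)) with hE0
  set f : ℝ := 2 * t * t * Dl / Q * y - r1 - t * r2 with hf
  have hE2 : X (s.n + 1 + 1) -
      (val (2 * C * s.xp / Q + s.un - (2 * C * s.xn / Q + s.up),
        2 * C * s.xn / Q + s.up - (2 * C * s.xp / Q + s.un)) +
      t * val ((2 * C * s.yp + 2 * Dl * s.xp) / Q + s.vn - ((2 * C * s.yn + 2 * Dl * s.xn) / Q + s.vp),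
        (2 * C * s.yn + 2 * Dl * s.xn) / Q + s.vp - ((2 * C * s.yp + 2 * Dl * s.xp) / Q + s.vn))) =
      2 * ((C + t * Dl) / Q) * E1 - E0 + f := by
    rw [val_sub, val_sub, hX, hE1, hE0, hf, hx, hy]
    simp only [val, Nat.cast_add (_ / Q)]
    push_cast at e1 e2
    linear_combination -e1 - t * e2
  have hfb : |f| ≤ ((2 * Dl * (s.yp + s.yn) / Q + 3 : ℕ) : ℝ) := by
    have a1 := (div_err (2 * Dl * (s.yp + s.yn)) Q hQ).1
    have a2 : |y| ≤ s.yp + s.yn := by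
      rw [hy, val, abs_le]
      constructor <;> linarith [Nat.cast_nonneg (α := ℝ) s.yp, Nat.cast_nonneg (α := ℝ) s.yn]
    have a3 : |2 * t * t * Dl / Q * y| ≤ 2 * 1 * 1 * Dl / Q * (s.yp + s.yn) := by
      simp only [abs_mul, abs_div, abs_two, Nat.abs_cast]
      gcongr
    have a4 : |t * r2| ≤ 1 * 1 := by rw [abs_mul]; gcongr
    have a5 := abs_sub (2 * t * t * Dl / Q * y - r1) (t * r2)
    have a6 := abs_sub (2 * t * t * Dl / Q * y) r1
    have a7 : 2 * 1 * 1 * (Dl : ℝ) / Q * (s.yp + s.yn) = ((2 * Dl * (s.yp + s.yn) : ℕ) : ℝ) / Q := by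
      push_cast; ring
    rw [Nat.cast_add (_ / Q)]
    push_cast at a1 a7 ⊢
    linarith
  have hz : ‖((2 * ((C + t * Dl) / Q) * E1 - E0 + f : ℝ) : ℂ) - w * E1‖ ≤
      ((s.d + (2 * Dl * (s.yp + s.yn) / Q + 3) : ℕ) : ℝ) := by
    have : ((2 * ((C + t * Dl) / Q) * E1 - E0 + f : ℝ) : ℂ) - w * E1 = w' * (E1 - w * E0) + f := by
      rw [ofReal_add, ofReal_sub, ofReal_mul, ← hs]
      linear_combination (E0 : ℂ) * hww
    rw [this, Nat.cast_add s.d]
    refine norm_add_le_of_le ?_ (by rwa [norm_real])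
    rw [norm_mul, hw', one_mul]; exact h.h2
  refine ⟨?_, ?_, by dsimp only; omega, ?_⟩
  · dsimp only
    have hz' : ‖w * E1‖ ≤ s.e := by rw [norm_mul, hw, one_mul, norm_real]; exact h.h1
    have := norm_add_le_of_le hz hz'
    rw [sub_add_cancel, norm_real] at this
    rw [hE2, Nat.cast_add s.e, add_comm (s.e : ℝ)]
    exact this
  · dsimp only
    rw [hE2]; exact hz
  · dsimp only
    rw [h.h4, pow_succ P (s.n + 1), Nat.factorial_succ (s.n + 1)]; ring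

theorem pow_rem (x d η : ℝ) (hd : |d| ≤ η) (n : ℕ) :
    |(x + d) ^ (n + 1) - x ^ (n + 1) - (n + 1) * x ^ n * d| ≤
      (|x| + η) ^ (n + 1) - |x| ^ (n + 1) - (n + 1) * |x| ^ n * η := by
  have hη := (abs_nonneg d).trans hd
  induction n with
  | zero => simp
  | succ n ih =>
    have e : ∀ x d : ℝ, (x + d) ^ (n + 1 + 1) - x ^ (n + 1 + 1) - ((n + 1 : ℕ) + 1) * x ^ (n + 1) * d =
        (x + d) * ((x + d) ^ (n + 1) - x ^ (n + 1) - (n + 1) * x ^ n * d) +
          (n + 1) * x ^ n * (d * d) := fun x d => by push_cast; ring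
    rw [e, e]
    refine (abs_add_le _ _).trans (add_le_add ?_ ?_)
    · rw [abs_mul]
      exact mul_le_mul ((abs_add_le _ _).trans (by linarith)) ih (abs_nonneg _) (by positivity)
    · rw [abs_mul, abs_mul, abs_mul, abs_pow, abs_of_nonneg (by positivity : (0 : ℝ) ≤ n + 1)]
      gcongr

theorem abs_val_le (p n : ℕ) : |val (p, n)| ≤ p + n := by
  rw [val, abs_le]
  constructor <;> linarith [Nat.cast_nonneg (α := ℝ) p, Nat.cast_nonneg (α := ℝ) n]

theorem big_ge (S : ℕ) (s : St) (hd : 0 < s.den) :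
    (S : ℝ) * (s.xp + s.xn + (s.yp + s.yn + s.e)) ^ (s.n + 1) / s.den ≤ big S s := by
  have := (div_err (S * (s.xp + s.xn + (s.yp + s.yn + s.e)) ^ (s.n + 1)) s.den hd).1
  have e : big S s = S * (s.xp + s.xn + (s.yp + s.yn + s.e)) ^ (s.n + 1) / s.den + 1 := by
    cases s; rfl
  rw [e, Nat.cast_add]
  push_cast at this ⊢
  linarith

theorem Jv.den_pos {P : ℕ} (hP : 0 < P) {X : ℕ → ℝ} {t : ℝ} {w : ℂ} {s : St} (h : Jv P X t w s) :
    0 < s.den := by rw [h.h4]; positivity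

theorem Jv.dev {P : ℕ} {X : ℕ → ℝ} {t : ℝ} (ht : |t| ≤ 1) {w : ℂ} {s : St} (h : Jv P X t w s) :
    |X (s.n + 1) - val (s.xp, s.xn)| ≤ s.yp + s.yn + s.e := by
  have a1 : |t * val (s.yp, s.yn)| ≤ 1 * (s.yp + s.yn) := by
    rw [abs_mul]; exact mul_le_mul ht (abs_val_le _ _) (abs_nonneg _) zero_le_one
  have a2 := abs_add_le (X (s.n + 1) - (val (s.xp, s.xn) + t * val (s.yp, s.yn)))
    (t * val (s.yp, s.yn))
  rw [show X (s.n + 1) - (val (s.xp, s.xn) + t * val (s.yp, s.yn)) + t * val (s.yp, s.yn) =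
    X (s.n + 1) - val (s.xp, s.xn) by ring] at a2
  linarith [h.h1]

theorem big_spec (S : ℕ) {P : ℕ} (hP : 0 < P) {X : ℕ → ℝ} {t : ℝ} (ht : |t| ≤ 1) {w : ℂ} {s : St}
    (h : Jv P X t w s) : |S * X (s.n + 1) ^ (s.n + 1) / s.den| ≤ big S s := by
  refine le_trans ?_ (big_ge S s (h.den_pos hP))
  rw [abs_div, abs_mul, abs_pow, Nat.abs_cast, Nat.abs_cast]
  gcongr
  have := abs_add_le (X (s.n + 1) - val (s.xp, s.xn)) (val (s.xp, s.xn))
  rw [sub_add_cancel] at this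
  linarith [h.dev ht, abs_val_le s.xp s.xn]

theorem emit_spec {β : Type} (S : ℕ) {P : ℕ} (hP : 0 < P) {X : ℕ → ℝ} {t : ℝ} (ht : |t| ≤ 1)
    {w : ℂ} {s : St} (h : Jv P X t w s) (k : Z × Z → ℕ → β) :
    ∃ c u, emit S s k = k c u ∧
      |S * X (s.n + 1) ^ (s.n + 1) / s.den - (val c.1 + t * val c.2)| ≤ u := by
  refine ⟨(sw (Nat.blt 0 s.xn && Nat.beq (s.n % 2) 1) (S * s.xp * (s.xp + s.xn) ^ s.n / s.den)
      (S * s.xn * (s.xp + s.xn) ^ s.n / s.den), sw (Nat.blt 0 s.xn && Nat.beq (s.n % 2) 1)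
      (S * (s.n + 1) * s.yp * (s.xp + s.xn) ^ s.n / s.den)
      (S * (s.n + 1) * s.yn * (s.xp + s.xn) ^ s.n / s.den)),
    big S s - (S * s.xp * (s.xp + s.xn) ^ s.n / s.den + S * s.xn * (s.xp + s.xn) ^ s.n / s.den +
      S * (s.n + 1) * s.yp * (s.xp + s.xn) ^ s.n / s.den +
      S * (s.n + 1) * s.yn * (s.xp + s.xn) ^ s.n / s.den), by cases s; rfl, ?_⟩
  have hd := h.den_pos hP
  have hd' : (0 : ℝ) < s.den := by exact_mod_cast hd
  set x := val (s.xp, s.xn) with hx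
  set y := val (s.yp, s.yn) with hy
  set g : ℝ := cond (Nat.blt 0 s.xn && Nat.beq (s.n % 2) 1) (-1) 1 with hg
  have hax : |x| = s.xp + s.xn := by
    rcases h.h3 with h0 | h0 <;> simp [hx, val, h0]
  have hg1 : |g| = 1 := by rw [hg]; cases (Nat.blt 0 s.xn && Nat.beq (s.n % 2) 1) <;> simp
  have hgx : x ^ s.n = g * (s.xp + s.xn) ^ s.n := by
    rcases Nat.eq_zero_or_pos s.xn with h0 | h0
    · simp [hx, hg, val, h0, show Nat.blt 0 0 = false from rfl]
    · have h1 : s.xp = 0 := by rcases h.h3 with h1 | h1 <;> omega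
      have h2 : Nat.blt 0 s.xn = true := by rw [Nat.blt_eq]; exact h0
      rcases Nat.even_or_odd s.n with he | he
      · simp [hx, hg, val, h1, Nat.even_iff.1 he, he.neg_pow, Nat.beq]
      · simp [hx, hg, val, h1, h2, Nat.odd_iff.1 he, he.neg_pow]
  have b0 := big_ge S s hd
  have b1 := pow_rem x _ _ (h.dev ht) s.n
  rw [add_sub_cancel, hax] at b1
  set V : ℝ := (s.xp + s.xn) ^ s.n with hV
  have hV0 : 0 ≤ V := by positivity
  have c1 := div_err (S * s.xp * (s.xp + s.xn) ^ s.n) s.den hd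
  have c2 := div_err (S * s.xn * (s.xp + s.xn) ^ s.n) s.den hd
  have c3 := div_err (S * (s.n + 1) * s.yp * (s.xp + s.xn) ^ s.n) s.den hd
  have c4 := div_err (S * (s.n + 1) * s.yn * (s.xp + s.xn) ^ s.n) s.den hd
  simp only [val_sw, ← hg]
  generalize S * s.xp * (s.xp + s.xn) ^ s.n / s.den = a at *
  generalize S * s.xn * (s.xp + s.xn) ^ s.n / s.den = b at *
  generalize S * (s.n + 1) * s.yp * (s.xp + s.xn) ^ s.n / s.den = a' at *
  generalize S * (s.n + 1) * s.yn * (s.xp + s.xn) ^ s.n / s.den = b' at *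
  push_cast at c1 c2 c3 c4
  rw [← hV] at c1 c2 c3 c4
  have hsub : (big S s : ℝ) - (a + b + a' + b') ≤ ((big S s - (a + b + a' + b') : ℕ) : ℝ) := by
    have : big S s ≤ big S s - (a + b + a' + b') + (a + b + a' + b') := le_tsub_add
    have := (Nat.cast_le (α := ℝ)).2 this
    push_cast at this; linarith
  refine le_trans ?_ hsub
  set e := X (s.n + 1) - (x + t * y) with he
  have key : S * X (s.n + 1) ^ (s.n + 1) / s.den - (g * val (a, b) + t * (g * val (a', b'))) =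
      S / s.den * (X (s.n + 1) ^ (s.n + 1) - x ^ (s.n + 1) -
        (s.n + 1) * x ^ s.n * (X (s.n + 1) - x)) + S / s.den * ((s.n + 1) * V) * (g * e) +
      g * ((S * s.xp * V / s.den - a) - (S * s.xn * V / s.den - b)) +
      t * g * ((S * (s.n + 1) * s.yp * V / s.den - a') - (S * (s.n + 1) * s.yn * V / s.den - b')) := by
    rw [pow_succ x, hgx, he, hx, hy]
    simp only [val]
    ring
  have d1 : |S / s.den * (X (s.n + 1) ^ (s.n + 1) - x ^ (s.n + 1) -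
      (s.n + 1) * x ^ s.n * (X (s.n + 1) - x))| ≤ S / s.den *
        ((s.xp + s.xn + (s.yp + s.yn + s.e)) ^ (s.n + 1) - (s.xp + s.xn) ^ (s.n + 1) -
          (s.n + 1) * V * (s.yp + s.yn + s.e)) := by
    rw [abs_mul, abs_of_nonneg (by positivity : (0 : ℝ) ≤ S / s.den)]
    gcongr
  have d2 : |S / s.den * ((s.n + 1) * V) * (g * e)| ≤ S / s.den * ((s.n + 1) * V) * s.e := by
    rw [abs_mul, abs_mul g, hg1, one_mul,
      abs_of_nonneg (by positivity : (0 : ℝ) ≤ S / s.den * ((s.n + 1) * V))]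
    gcongr
    exact h.h1
  have d3 : |g * ((S * s.xp * V / s.den - a) - (S * s.xn * V / s.den - b))| ≤
      (S * s.xp * V / s.den - a) + (S * s.xn * V / s.den - b) := by
    rw [abs_mul, hg1, one_mul, abs_le]; constructor <;> linarith [c1.2, c2.2]
  have d4 : |t * g * ((S * (s.n + 1) * s.yp * V / s.den - a') -
      (S * (s.n + 1) * s.yn * V / s.den - b'))| ≤ 1 * ((S * (s.n + 1) * s.yp * V / s.den - a') +
        (S * (s.n + 1) * s.yn * V / s.den - b')) := by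
    rw [abs_mul, abs_mul, hg1, mul_one]
    refine mul_le_mul ht ?_ (abs_nonneg _) zero_le_one
    rw [abs_le]; constructor <;> linarith [c3.2, c4.2]
  rw [key]
  refine (abs_add_le _ _).trans ((add_le_add ((abs_add_le _ _).trans (add_le_add
    ((abs_add_le _ _).trans (add_le_add d1 d2)) d3)) d4).trans ?_)
  refine le_trans (le_of_eq ?_) (sub_le_sub_right b0 _)
  rw [pow_succ ((s.xp : ℝ) + s.xn), ← hV]
  ring

/-- enclosure of a partial sum -/
def En (S P : ℕ) (X : ℕ → ℝ) (t c0 : ℝ) (n : ℕ) (L : List (Z × Z)) (sl : ℕ) : Prop :=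
  ∀ z : ℂ, ‖z‖ ≤ 1 → ‖∑ j ∈ Finset.range n, ((S * X j ^ j / ((P ^ j * j.factorial : ℕ) : ℝ) : ℝ) : ℂ) *
    z ^ j - c0 - (ev z (fstL L) + t * ev z (sndL L))‖ ≤ sl

section

variable {S C Dl Q P : ℕ} (hQ : 0 < Q) (hP : 0 < P) {X : ℕ → ℝ} {t c0 : ℝ} (ht : |t| ≤ 1)
  {w w' : ℂ} (hX : ∀ n, X (n + 2) = 2 * ((C + t * Dl) / Q) * X (n + 1) - X n)
  (hw : ‖w‖ = 1) (hww : w * w' = 1) (hs : w + w' = ((2 * ((C + t * Dl) / Q) : ℝ) : ℂ))

include hQ hP ht hX hw hww hs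

theorem run1_spec (m : ℕ) : ∀ s L sl k, Jv P X t w s → L.length = s.n + 1 →
    En S P X t c0 (s.n + 1) L sl → run1 S (2 * C) (2 * Dl) Q P m s L sl k = true →
    ∃ s' L' sl', k s' L' sl' = true ∧ Jv P X t w s' ∧ s'.n = s.n + m ∧ L'.length = s'.n + 1 ∧
      En S P X t c0 (s'.n + 1) L' sl' := by
  induction m with
  | zero => intro s L sl k h1 h2 h3 h4; exact ⟨s, L, sl, h4, h1, rfl, h2, h3⟩
  | succ m ih =>
    intro s L sl k h1 h2 h3 h4
    have e : run1 S (2 * C) (2 * Dl) Q P (m + 1) s L sl k = emit S s fun c w => frc (sl + w) fun sl' =>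
      adv (2 * C) (2 * Dl) Q P s fun s' => run1 S (2 * C) (2 * Dl) Q P m s' (c :: L) sl' k := rfl
    obtain ⟨c, u, e1, hu⟩ := emit_spec S hP ht h1 fun c w => frc (sl + w) fun sl' =>
      adv (2 * C) (2 * Dl) Q P s fun s' => run1 S (2 * C) (2 * Dl) Q P m s' (c :: L) sl' k
    obtain ⟨s', e2, j2, n2⟩ := adv_spec hQ ht hX hw hww hs h1
      fun s' => run1 S (2 * C) (2 * Dl) Q P m s' (c :: L) (sl + u) k
    rw [e, e1, frc_eq, e2] at h4
    obtain ⟨s2, L2, sl2, a1, a2, a3, a4⟩ := ih s' (c :: L) (sl + u) k j2 (by simp [h2, n2])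
      (fun z hz => by
        have h5 : ‖((S * X (s.n + 1) ^ (s.n + 1) / s.den - (val c.1 + t * val c.2) : ℝ) : ℂ) *
            z ^ (s.n + 1)‖ ≤ u := by
          rw [norm_mul, norm_real, norm_pow]
          exact (mul_le_of_le_one_right (norm_nonneg _) (pow_le_one₀ (norm_nonneg _) hz)).trans hu
        have h6 := norm_add_le_of_le (h3 z hz) h5
        have f1 : fstL (c :: L) = c.1 :: fstL L := rfl
        have f2 : sndL (c :: L) = c.2 :: sndL L := rfl
        rw [n2, Finset.sum_range_succ, f1, f2, ev, ev, (len_fstL L).1, (len_fstL L).2, h2, ← h1.h4,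
          Nat.cast_add sl]
        refine le_of_eq_of_le (congrArg _ ?_) h6
        push_cast; ring) h4
    exact ⟨s2, L2, sl2, a1, a2, by omega, a4⟩

theorem run2_spec (L : List (Z × Z)) (m : ℕ) : ∀ s sl k, Jv P X t w s →
    En S P X t c0 (s.n + 1) L sl → run2 S (2 * C) (2 * Dl) Q P m s sl k = true →
    ∃ s' sl', k s' sl' = true ∧ Jv P X t w s' ∧ s'.n = s.n + m ∧
      En S P X t c0 (s'.n + 1) L sl' := by
  induction m with
  | zero => intro s sl k h1 h3 h4; exact ⟨s, sl, h4, h1, rfl, h3⟩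
  | succ m ih =>
    intro s sl k h1 h3 h4
    have e : run2 S (2 * C) (2 * Dl) Q P (m + 1) s sl k = frc (sl + big S s) fun sl' =>
      adv (2 * C) (2 * Dl) Q P s fun s' => run2 S (2 * C) (2 * Dl) Q P m s' sl' k := rfl
    obtain ⟨s', e2, j2, n2⟩ := adv_spec hQ ht hX hw hww hs h1
      fun s' => run2 S (2 * C) (2 * Dl) Q P m s' (sl + big S s) k
    rw [e, frc_eq, e2] at h4
    obtain ⟨s2, sl2, a1, a2, a3, a4⟩ := ih s' (sl + big S s) k j2
      (fun z hz => by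
        have h5 : ‖((S * X (s.n + 1) ^ (s.n + 1) / s.den : ℝ) : ℂ) * z ^ (s.n + 1)‖ ≤ big S s := by
          rw [norm_mul, norm_real, norm_pow]
          exact (mul_le_of_le_one_right (norm_nonneg _)
            (pow_le_one₀ (norm_nonneg _) hz)).trans (big_spec S hP ht h1)
        have h6 := norm_add_le_of_le (h3 z hz) h5
        rw [n2, Finset.sum_range_succ, ← h1.h4, Nat.cast_add sl]
        refine le_of_eq_of_le (congrArg _ ?_) h6
        ring) h4
    exact ⟨s2, sl2, a1, a2, by omega, a4⟩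

end

theorem tail_GG {φ : ℝ} (h : 0 < Real.sin φ) {τ : ℂ} {X : ℝ} (hX : ‖τ‖ ≤ X * Real.sin φ) {n : ℕ}
    (hn : 2 * X ≤ n + 1) : ‖GG (Real.cos φ) τ -
      ∑ j ∈ Finset.range n, (τ * uu (Real.cos φ) j) ^ j / j.factorial‖ ≤ 2 * X ^ n / n.factorial := by
  have hX0 : 0 ≤ X := nonneg_of_mul_nonneg_left ((norm_nonneg _).trans hX) h
  have hs := summable_GG h τ
  have h1 := exp_bound' (x := X) (n := n) (by
    rw [norm_real, Real.norm_of_nonneg hX0, div_le_iff₀ (by positivity)]; push_cast; linarith)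
  have h2 : ‖cexp X - ∑ m ∈ Finset.range n, (X : ℂ) ^ m / m.factorial‖ =
      ∑' m : ℕ, X ^ (m + n) / (m + n).factorial := by
    have h3 := (Real.summable_pow_div_factorial X).sum_add_tsum_nat_add n
    have h4 : Real.exp X = ∑' m : ℕ, X ^ m / m.factorial := by
      rw [Real.exp_eq_exp_ℝ, NormedSpace.exp_eq_tsum_div]
    have : cexp X - ∑ m ∈ Finset.range n, (X : ℂ) ^ m / m.factorial =
        ((∑' m : ℕ, X ^ (m + n) / (m + n).factorial : ℝ) : ℂ) := by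
      rw [eq_sub_of_add_eq' h3, ← h4]; push_cast; rfl
    rw [this, norm_real, Real.norm_of_nonneg (tsum_nonneg fun m => by positivity)]
  rw [h2, norm_real, Real.norm_of_nonneg hX0] at h1
  rw [GG, ← hs.of_norm.sum_add_tsum_nat_add n, add_sub_cancel_left]
  refine le_trans (tsum_of_norm_bounded
    ((summable_nat_add_iff n).2 (Real.summable_pow_div_factorial X)).hasSum fun m => ?_)
    (h1.trans (le_of_eq (by ring)))
  rw [norm_GG_term]
  gcongr
  calc _ ≤ X * Real.sin φ * (1 / Real.sin φ) := by gcongr; exact abs_uu_le h _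
    _ = X := by field_simp

theorem gen_spec {S Q P C Dl x1 E1 a0 M M2 X : ℕ} (hQ : 0 < Q) (hP : 0 < P)
    {k : List (Z × Z) → ℕ → Bool} (h : gen S Q P C Dl x1 E1 a0 M M2 X k = true) {φ R : ℝ}
    (hφ : 0 < Real.sin φ) (hc : |Q * Real.cos φ - C| ≤ Dl) (hR0 : 0 ≤ R) (hR : |P * R - x1| ≤ E1) :
    ∃ L sl, ∃ t : ℝ, |t| ≤ 1 ∧ k L sl = true ∧ L.length = M + 1 ∧ ∀ z : ℂ, ‖z‖ ≤ 1 →
      ‖S * GG (Real.cos φ) (R * z) - ((S - a0 : ℝ) : ℂ) -
        (ev z (fstL L) + t * ev z (sndL L))‖ ≤ sl := by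
  have hQ' : (0 : ℝ) < Q := by exact_mod_cast hQ
  have hP' : (0 : ℝ) < P := by exact_mod_cast hP
  obtain ⟨t, ht, hct⟩ : ∃ t : ℝ, |t| ≤ 1 ∧ (C + t * Dl) / Q = Real.cos φ := by
    rcases Nat.eq_zero_or_pos Dl with h0 | h0
    · refine ⟨0, by simp, ?_⟩
      rw [h0, Nat.cast_zero, abs_nonpos_iff] at hc
      rw [div_eq_iff hQ'.ne']; linarith
    · have h0' : (0 : ℝ) < Dl := by exact_mod_cast h0
      refine ⟨(Q * Real.cos φ - C) / Dl, ?_, by field_simp; ring⟩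
      rwa [abs_div, abs_of_pos h0', div_le_one h0']
  simp only [gen, Bool.and_eq_true, Nat.ble_eq, frc_eq] at h
  obtain ⟨⟨h1, h2⟩, h3⟩ := h
  set Y : ℕ → ℝ := fun n => P * R * uu (Real.cos φ) n with hY
  have hX : ∀ n, Y (n + 2) = 2 * ((C + t * Dl) / Q) * Y (n + 1) - Y n := fun n => by
    simp only [hY, hct, uu_succ]; ring
  have hw : ‖exp (φ * I)‖ = 1 := norm_exp_ofReal_mul_I φ
  have hww : exp (φ * I) * exp (-φ * I) = 1 := by rw [← exp_add]; simp
  have hs : exp (φ * I) + exp (-φ * I) = ((2 * ((C + t * Dl) / Q) : ℝ) : ℂ) := by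
    rw [hct, ← two_cos]; push_cast; rfl
  obtain ⟨s, L, sl, a1, a2, a3, a4, a5⟩ := run1_spec (S := S) (c0 := S - a0) hQ hP ht hX hw hww hs M
    _ _ _ _ (by
      refine ⟨?_, ?_, Or.inr rfl, by simp⟩
      · simpa [hY, val, uu_one] using hR
      · simpa [hY, val, uu_one, uu_zero, ← ofReal_natCast, ← ofReal_mul, ← ofReal_sub] using hR)
    rfl (fun z _ => by simp [fstL, sndL, ev, val]) h3
  obtain ⟨s', sl', b1, b2, b3, b4⟩ := run2_spec hQ hP ht hX hw hww hs L M2 _ _ _ a2 a5 a1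
  have hn : s'.n + 1 = M + M2 + 1 := by simp only at a3; omega
  refine ⟨L, _, t, ht, b1, by simp only at a3; omega, fun z hz => ?_⟩
  have hRX : R ≤ X * Real.sin φ := by
    have g1 := (Nat.cast_le (α := ℝ)).2 h1
    push_cast at g1
    have g2 : (P * R) ^ 2 ≤ (x1 + E1 : ℝ) ^ 2 :=
      pow_le_pow_left₀ (by positivity) (by linarith [(abs_le.1 hR).2]) 2
    have g3 : (Q * Real.cos φ) ^ 2 ≤ (C + Dl : ℝ) ^ 2 := by
      refine sq_le_sq' ?_ ?_ <;>
        linarith [(abs_le.1 hc).1, (abs_le.1 hc).2, Nat.cast_nonneg (α := ℝ) C]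
    refine le_of_sq_le_sq (le_of_mul_le_mul_left ?_ (by positivity : (0 : ℝ) < P ^ 2 * Q ^ 2))
      (by positivity)
    have g4 := mul_le_mul_of_nonneg_left g3 (by positivity : (0 : ℝ) ≤ X ^ 2 * P ^ 2)
    have g5 := mul_le_mul_of_nonneg_right g2 (by positivity : (0 : ℝ) ≤ Q ^ 2)
    rw [mul_pow (X : ℝ), Real.sin_sq]
    linarith
  have t1 := tail_GG hφ (τ := R * z) (X := X) (n := M + M2 + 1) (by
    rw [norm_mul, norm_real, Real.norm_of_nonneg hR0]
    exact (mul_le_of_le_one_right hR0 hz).trans hRX) (by exact_mod_cast h2)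
  have t2 := b4 z hz
  have t3 := mul_le_mul_of_nonneg_left t1 (Nat.cast_nonneg (α := ℝ) S)
  rw [← Complex.norm_natCast, ← norm_mul, Complex.norm_natCast] at t3
  have t4 := (div_err (2 * S * (X * P) ^ (M + M2 + 1)) s'.den (b2.den_pos hP)).1
  have t5 : ((2 * S * (X * P) ^ (M + M2 + 1) : ℕ) : ℝ) / s'.den =
      S * (2 * X ^ (M + M2 + 1) / (M + M2 + 1).factorial) := by
    rw [b2.h4, hn]; push_cast; rw [mul_pow]; field_simp
  have t6 : ∑ j ∈ Finset.range (M + M2 + 1),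
      ((S * Y j ^ j / ((P ^ j * j.factorial : ℕ) : ℝ) : ℝ) : ℂ) * z ^ j =
      S * ∑ j ∈ Finset.range (M + M2 + 1), (R * z * uu (Real.cos φ) j) ^ j / j.factorial := by
    rw [Finset.mul_sum]
    refine Finset.sum_congr rfl fun j _ => ?_
    have : (P : ℂ) ≠ 0 := by exact_mod_cast hP.ne'
    simp only [hY, mul_pow]; push_cast; field_simp
  rw [hn, t6] at t2
  rw [Nat.cast_add sl', Nat.cast_add _ 1, Nat.cast_one]
  refine le_of_eq_of_le (congrArg _ ?_) ((norm_add_le_of_le t2 t3).trans (by linarith))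
  ring

/-- positivity on `[0,1]` -/
noncomputable def low (L : List (Z × Z)) : ℕ → ℕ → Bool :=
  List.rec (fun _ _ => false) (fun c l ih sl v =>
    List.rec (Nat.blt (v + c.1.2 + zabs c.2 + sl) c.1.1)
      (fun _ _ _ => frc (v + c.1.2 + zabs c.2 - c.1.1) fun v' => ih sl v') l) L

theorem low_spec {x t : ℝ} (h0 : 0 ≤ x) (h1 : x ≤ 1) (ht : |t| ≤ 1) (sl : ℕ) (L : List (Z × Z)) :
    ∀ v, low L sl v = true →
      (sl : ℝ) < (ev x (fstL L) + t * ev x (sndL L)).re - v * x ^ (L.length - 1) := by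
  induction L with
  | nil => intro v h; exact absurd h (by simp [low])
  | cons c l ih =>
    intro v h
    have f1 : fstL (c :: l) = c.1 :: fstL l := rfl
    have f2 : sndL (c :: l) = c.2 :: sndL l := rfl
    have e : (ev x (fstL (c :: l)) + t * ev x (sndL (c :: l))).re =
        (val c.1 + t * val c.2) * x ^ l.length + (ev x (fstL l) + t * ev x (sndL l)).re := by
      rw [f1, f2, ev, ev, (len_fstL l).1, (len_fstL l).2, ← ofReal_pow]
      simp only [add_re, mul_re, add_im, mul_im, ofReal_re, ofReal_im]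
      ring
    have a1 : |t * val c.2| ≤ 1 * zabs c.2 := by
      rw [abs_mul, val_zabs]; exact mul_le_mul_of_nonneg_right ht (abs_nonneg _)
    have a2 := (abs_le.1 a1).1
    rw [e, List.length_cons, Nat.add_sub_cancel]
    rcases l with _ | ⟨c', l⟩
    · have : low [c] sl v = Nat.blt (v + c.1.2 + zabs c.2 + sl) c.1.1 := rfl
      rw [this, Nat.blt_eq] at h
      have h' := (Nat.cast_lt (α := ℝ)).2 h
      push_cast at h'
      simp only [fstL, sndL, ev, List.length_nil, pow_zero, mul_zero, add_zero, zero_re, mul_one]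
      rw [val]; linarith
    · have : low (c :: c' :: l) sl v = frc (v + c.1.2 + zabs c.2 - c.1.1) fun v' =>
        low (c' :: l) sl v' := rfl
      rw [this, frc_eq] at h
      have h2 := ih _ h
      have h3 : v + c.1.2 + zabs c.2 ≤ v + c.1.2 + zabs c.2 - c.1.1 + c.1.1 := le_tsub_add
      generalize v + c.1.2 + zabs c.2 - c.1.1 = v' at h2 h3
      have h4 := (Nat.cast_le (α := ℝ)).2 h3
      push_cast at h4
      rw [List.length_cons, Nat.add_sub_cancel] at h2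
      have h5 : -(v' : ℝ) ≤ val c.1 + t * val c.2 - v := by rw [val]; linarith
      have h6 := mul_le_mul_of_nonneg_right h5 (pow_nonneg h0 (l.length + 1))
      have h7 : (v' : ℝ) * x ^ (l.length + 1) ≤ v' * x ^ l.length :=
        mul_le_mul_of_nonneg_left (pow_le_pow_of_le_one h0 h1 (Nat.le_succ _)) (Nat.cast_nonneg _)
      rw [List.length_cons]
      linarith

def finPi (D x r k : ℕ) : Bool := Nat.ble (2 * D * D) (r * x) && Nat.ble 2 k && Nat.ble k 14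

theorem arctan_le {y : ℝ} (h : 0 ≤ y) : Real.arctan y ≤ y := by
  have := Real.le_tan (Real.arctan_nonneg.2 h) (Real.arctan_lt_pi_div_two y)
  rwa [Real.tan_arctan] at this

theorem finPi_spec {D : ℕ} (hD : 0 < D) (x r k : ℕ) (h : finPi D x r k = true) :
    ang D x ≤ Real.pi ∧ Real.pi ≤ ang D x + r / D ∧ 2 ≤ k ∧ k ≤ 14 := by
  simp only [finPi, Bool.and_eq_true, Nat.ble_eq] at h
  obtain ⟨⟨h1, h2⟩, h3⟩ := h
  have hD' : (0 : ℝ) < D := by exact_mod_cast hD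
  have hx : 0 < x := Nat.pos_of_ne_zero fun h0 => by
    rw [h0, mul_zero] at h1
    have : 0 < 2 * D * D := by positivity
    omega
  have hx' : (0 : ℝ) < x := by exact_mod_cast hx
  refine ⟨by unfold ang; linarith [Real.arctan_lt_pi_div_two (x / D)], ?_, h2, h3⟩
  have a1 := Real.arctan_inv_of_pos (div_pos hx' hD')
  have a2 : Real.arctan ((x : ℝ) / D)⁻¹ ≤ ((x : ℝ) / D)⁻¹ := arctan_le (by positivity)
  have a3 : 2 * ((x : ℝ) / D)⁻¹ ≤ r / D := by
    have := (Nat.cast_le (α := ℝ)).2 h1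
    push_cast at this
    rw [inv_div, ← mul_div_assoc, div_le_div_iff₀ hx' hD']; exact this
  unfold ang; linarith

noncomputable def boxOk (D Oc S Q P : ℕ)
    (b : (ℕ × ℕ × ℕ × ℕ × ℕ × ℕ) × List (ℕ × ℕ × ℕ × ℕ)) : Bool :=
  Nat.blt 0 b.1.2.2.1 &&
  gen S Q P b.1.1 b.1.2.1 b.1.2.2.1 0 S b.1.2.2.2.1 b.1.2.2.2.2.1 b.1.2.2.2.2.2 fun L sl =>
    low L sl 0 && chk D Oc (b.1.2.2.2.1 + 5) sl (finPi D) b.2 (fstL L) (sndL L)

theorem boxOk_spec {D Oc S Q P : ℕ} (hD : 0 < D) (hS : 0 < S) (hQ : 0 < Q) (hP : 0 < P)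
    {b : (ℕ × ℕ × ℕ × ℕ × ℕ × ℕ) × List (ℕ × ℕ × ℕ × ℕ)} (h : boxOk D Oc S Q P b = true) {φ : ℝ}
    (hφ : 0 < Real.sin φ) (hc : |Q * Real.cos φ - b.1.1| ≤ b.1.2.1) :
    ∃ R, Good (Real.cos φ) R := by
  simp only [boxOk, Bool.and_eq_true, Nat.blt_eq] at h
  obtain ⟨h0, h⟩ := h
  have hP' : (0 : ℝ) < P := by exact_mod_cast hP
  have hS' : (0 : ℝ) < S := by exact_mod_cast hS
  have hR : (0 : ℝ) < b.1.2.2.1 / P := div_pos (by exact_mod_cast h0) hP'
  obtain ⟨L, sl, t, ht, h1, h2, h3⟩ := gen_spec hQ hP h hφ hc hR.le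
    (by rw [mul_div_cancel₀ _ hP'.ne']; simp)
  set R : ℝ := b.1.2.2.1 / P
  simp only [sub_self, ofReal_zero, sub_zero] at h3
  simp only [Bool.and_eq_true] at h1
  have hpos : ∀ x : ℝ, 0 ≤ x → x ≤ 1 → 0 < ((S : ℂ) * GG (Real.cos φ) (R * x)).re :=
    fun x x0 x1 => by
    have a1 := low_spec x0 x1 ht sl L 0 h1.1
    have a2 := (abs_le.1 ((abs_re_le_norm _).trans
      (h3 x (by rwa [norm_real, Real.norm_of_nonneg x0])))).1
    rw [sub_re] at a2
    simp only [Nat.cast_zero, zero_mul, sub_zero] at a1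
    linarith
  obtain ⟨k, hk, hI⟩ := check_spec (g := fun α => S * GG (Real.cos φ) (R * exp (α * I))) hD
    (by rw [(len_fstL L).1, h2]) (by rw [(len_fstL L).2, h2]) (finPi_spec hD) h1.2
    (fun α _ => ⟨t, ht, h3 _ (norm_exp_ofReal_mul_I α).le⟩) (by simpa using hpos 1 zero_le_one le_rfl)
  refine ⟨R, hR, ⟨k, hk.1, hk.2, ?_⟩, fun x x0 x1 h4 => ?_⟩
  · have := Inv.scale (g := fun α => GG (Real.cos φ) (R * exp (α * I))) (c := 1) (b := Real.pi)
      (k := k) one_pos hS' (by simpa using hI)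
    rwa [one_mul] at this
  · have := hpos (x / R) (by positivity) ((div_le_one hR).2 x1)
    rw [← ofReal_mul, mul_div_cancel₀ _ hR.ne', h4] at this
    simp at this

noncomputable def cover (D Oc S Q P hi : ℕ)
    (l : List ((ℕ × ℕ × ℕ × ℕ × ℕ × ℕ) × List (ℕ × ℕ × ℕ × ℕ))) : ℕ → Bool :=
  List.rec (fun lo => Nat.ble hi lo) (fun b _ ih lo => Nat.ble b.1.1 (lo + b.1.2.1) &&
    boxOk D Oc S Q P b && ih (b.1.1 + b.1.2.1)) l

theorem cover_spec {D Oc S Q P hi : ℕ} (hD : 0 < D) (hS : 0 < S) (hQ : 0 < Q) (hP : 0 < P)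
    {φ : ℝ} (hφ : 0 < Real.sin φ) (h2 : Q * Real.cos φ < hi)
    (l : List ((ℕ × ℕ × ℕ × ℕ × ℕ × ℕ) × List (ℕ × ℕ × ℕ × ℕ))) :
    ∀ lo : ℕ, cover D Oc S Q P hi l lo = true → lo ≤ Q * Real.cos φ →
      ∃ R, Good (Real.cos φ) R := by
  induction l with
  | nil =>
    intro lo h h1
    have : hi ≤ lo := Nat.le_of_ble_eq_true h
    have : (hi : ℝ) ≤ lo := by exact_mod_cast this
    linarith
  | cons b l ih =>
    intro lo h h1
    have e : cover D Oc S Q P hi (b :: l) lo = (Nat.ble b.1.1 (lo + b.1.2.1) &&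
      boxOk D Oc S Q P b && cover D Oc S Q P hi l (b.1.1 + b.1.2.1)) := rfl
    rw [e] at h
    simp only [Bool.and_eq_true, Nat.ble_eq] at h
    obtain ⟨⟨a1, a2⟩, a3⟩ := h
    have a4 := (Nat.cast_le (α := ℝ)).2 a1
    push_cast at a4
    rcases le_total (Q * Real.cos φ) (b.1.1 + b.1.2.1) with a5 | a5
    · exact boxOk_spec hD hS hQ hP a2 hφ (abs_le.2 ⟨by linarith, by linarith⟩)
    · exact ih _ a3 (by push_cast; exact a5)

end Pool.Agent.MP_39ed1d_co.H76
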