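import Pool.Agent.MP_39ed1d_co.H76.Small
import Pool.Agent.MP_39ed1d_co.H76.Data1
import Pool.Agent.MP_39ed1d_co.H76.Data2
import Pool.Agent.MP_39ed1d_co.H76.Data3
import Pool.Agent.MP_39ed1d_co.H24.BIof
import Pool.Agent.MP_39ed1d_co.H89.Local
import Pool.Agent.MP_39ed1d_co.H46.Few
import Pool.Agent.MP_39ed1d_co.H15.Gap
import Pool.Agent.MP_39ed1d_co.H6.Inside
import Pool.Agent.MP_39ed1d_co.H88.Outside
import Pool.Agent.MP_39ed1d_co.H78.Flows

/-! Assembly. -/

namespace Pool.Agent.MP_39ed1d_co.H76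

open Filter Topology Metric

theorem bi : BI := by
  refine H24.BI_of fun φ h0 h1 => ?_
  have hpi := Real.pi_gt_three
  rcases le_or_gt φ (1 / 2000) with h2 | h2
  · obtain ⟨v, hv, e⟩ : ∃ v : ℝ, 0 < v ∧ v ^ 3 / 2 = φ :=
      ⟨(2 * φ) ^ ((3 : ℕ) : ℝ)⁻¹, by positivity, by
        rw [Real.rpow_inv_natCast_pow (by positivity) (by norm_num)]; ring⟩
    have hv1 : v ≤ 1 / 10 := le_of_pow_le_pow_left₀ (n := 3) (by norm_num) (by norm_num)
      (by linarith)
    refine ⟨RR v, e ▸ small hv hv1, fun v' hv' _ e' => ?_⟩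
    have : v = v' := (pow_left_inj₀ hv.le hv'.le (n := 3) (by norm_num)).1 (by linarith)
    subst this
    refine mul_le_of_le_one_right (Real.exp_pos _).le ?_
    rw [div_le_one (by positivity)]
    exact Real.sin_le (by positivity)
  · have hc := Real.cos_le_cos_of_nonneg_of_le_pi (by norm_num) (by linarith) h2.le
    obtain ⟨R, hR⟩ := ((part1.trans part2).trans part3) φ
      (Real.sin_pos_of_pos_of_lt_pi h0 (by linarith))
      (by simpa using Real.cos_nonneg_of_neg_pi_div_two_le_of_le (by linarith) h1)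
      (by have := (abs_le.1 cos_ref).2; push_cast; linarith)
    refine ⟨R, hR, fun v hv hv1 e => ?_⟩
    have : v ^ 3 ≤ (1 / 10) ^ 3 := pow_le_pow_left₀ hv.le hv1 3
    linarith

theorem gap : Gap := H15.gap_of (H46.few_of_arc (H89.arc_of_BI bi)) H89.near

section

variable {F : ℕ → Polynomial ℤ} (hF : ∀ n q : ℕ, 1 ≤ q → (F n).eval (q : ℤ) = nflow n q)

include hF

theorem one_root {n : ℕ} (hn : 2 ≤ n) : Polynomial.aeval (1 : ℂ) (F n) = 0 := by
  have h := hF n 1 le_rfl
  rw [H78.nflow_one n hn] at h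
  have := Polynomial.aeval_algebraMap_apply_eq_algebraMap_eval (A := ℂ) (1 : ℤ) (F n)
  simp only [Nat.cast_one, Nat.cast_zero] at h
  rwa [h, map_one, map_zero] at this

theorem root_WW {n : ℕ} {q : ℂ} (h : Polynomial.aeval q (F n) = 0) : WW q (1 - q) n = 0 := by
  have := H78.flows_eval F hF n q
  rw [h, zero_mul] at this
  simpa [Nat.factorial_ne_zero] using this

theorem near_roots {z : ℂ} (hz : z ∈ {z : ℂ | ‖z - 1‖ = 1} ∪ {1}) :
    Tendsto (fun n => infDist z {w : ℂ | Polynomial.aeval w (F n) = 0}) atTop (𝓝 0) := by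
  rw [Metric.tendsto_nhds]
  intro ε hε
  rcases hz with hz | hz
  · filter_upwards [H88.oncircle (fun z h1 h2 => by
      obtain ⟨ε, κ, h3, h4, h5⟩ := H6.inside gap z h1 h2
      exact ⟨κ, h4, h5.mono fun n hn => hn z (by simpa using h3)⟩) z hz ε hε] with n ⟨q, h1, h2, h3⟩
    have h4 : Polynomial.aeval q (F n) = 0 := by
      have := H78.flows_eval F hF n q
      rw [h3, mul_zero] at this
      exact (mul_eq_zero.1 this).resolve_right (pow_ne_zero _ h2)
    rw [Real.dist_eq, sub_zero, abs_of_nonneg infDist_nonneg]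
    refine (infDist_le_dist_of_mem (y := q) h4).trans_lt ?_
    rwa [dist_comm, dist_eq_norm]
  · filter_upwards [eventually_ge_atTop 2] with n hn
    rw [Set.mem_singleton_iff.1 hz, infDist_zero_of_mem (x := (1 : ℂ))
      (s := {w : ℂ | Polynomial.aeval w (F n) = 0}) (one_root hF hn)]
    simpa using hε

theorem far_roots {z : ℂ} (hz : z ∉ {z : ℂ | ‖z - 1‖ = 1} ∪ {1}) :
    0 < liminf (fun n => infDist z {w : ℂ | Polynomial.aeval w (F n) = 0}) atTop := by
  simp only [Set.mem_union, Set.mem_ofPred_eq, Set.mem_singleton_iff, not_or] at hz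
  obtain ⟨ε, hε, h⟩ : ∃ ε : ℝ, 0 < ε ∧ ∀ᶠ n : ℕ in atTop, ∀ q : ℂ, ‖q - z‖ < ε →
      WW q (1 - q) n ≠ 0 := by
    rcases lt_or_gt_of_ne hz.1 with h | h
    · obtain ⟨ε, κ, h3, h4, h5⟩ := H6.inside gap z h hz.2
      exact ⟨ε, h3, h5.mono fun n hn q hq => norm_pos_iff.1 ((pow_pos h4 n).trans_le (hn q hq))⟩
    · exact H88.outside z h
  refine hε.trans_le (le_liminf_of_le ?_ ?_)
  · refine isCoboundedUnder_ge_of_eventually_le atTop (x := dist z 1) ?_
    filter_upwards [eventually_ge_atTop 2] with n hn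
    exact infDist_le_dist_of_mem (one_root hF hn)
  · filter_upwards [h, eventually_ge_atTop 2] with n hn h2
    refine (le_infDist ⟨1, one_root hF h2⟩).2 fun q hq => le_of_not_gt fun hlt => ?_
    rw [dist_comm, dist_eq_norm] at hlt
    exact hn q hlt (root_WW hF hq)

theorem main :
    {z : ℂ | Tendsto (fun n => infDist z {w : ℂ | Polynomial.aeval w (F n) = 0}) atTop (𝓝 0)} =
      {z : ℂ | ‖z - 1‖ = 1} ∪ {1} ∧
    {z : ℂ | liminf (fun n => infDist z {w : ℂ | Polynomial.aeval w (F n) = 0}) atTop = 0} =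
      {z : ℂ | ‖z - 1‖ = 1} ∪ {1} := by
  constructor
  · refine Set.ext fun z => ⟨fun h => by_contra fun hz => ?_, near_roots hF⟩
    exact (far_roots hF hz).ne' h.liminf_eq
  · refine Set.ext fun z => ⟨fun h => by_contra fun hz => ?_, fun h => (near_roots hF h).liminf_eq⟩
    exact (far_roots hF hz).ne' h

end

end Pool.Agent.MP_39ed1d_co.H76
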