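import Pool.Agent.MP_39ed1d_co.H76.Gen
import Pool.Agent.MP_39ed1d_co.H6.Coef
import Pool.Agent.MP_39ed1d_co.H73.Window
import Pool.Agent.MP_39ed1d_co.H15.Large

/-! Small angles: comparison with one certified reference angle. -/

namespace Pool.Agent.MP_39ed1d_co.H76

open Set Complex

def finRef (x _r k : ℕ) : Bool := Nat.beq x 2944 && Nat.ble 7 k && Nat.ble k 9

set_option maxRecDepth 100000 in
theorem ref_ok : gen 100663296000 17592186044416 1099511627776 17592183845393 2 408757202882 40000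
    77007421440 660 1365 744 (fun L sl => chk 65536 1208925819614629174706176 665
      (sl + nrm (sndL L) + 127506841600) finRef
      [(108, 295, 1, 0), (311, 117, 2, 0), (404, 87, 3, 1), (468, 55, 4, 1), (507, 38, 5, 1),
        (543, 45, 6, 2), (597, 83, 7, 2), (678, 128, 8, 2), (799, 150, 9, 2), (944, 159, 9, 2),
        (1119, 191, 9, 2), (1308, 209, 9, 2), (1513, 229, 9, 2), (1736, 249, 9, 2),
        (1979, 269, 9, 2), (2243, 287, 9, 2), (2531, 305, 9, 2), (2813, 320, 9, 2),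
        (2944, 326, 9, 2)] (fstL L) [(23655874560, 0)]) = true := by decide +kernel

theorem ang_ref : 89 / 1000 ≤ ang 65536 2944 ∧ ang 65536 2944 ≤ 9 / 100 := by
  have h0 : (0 : ℝ) ≤ ((2944 : ℕ) : ℝ) / (65536 : ℕ) := by positivity
  have h1 := arctan_le h0
  have h2 := Real.sin_le (Real.arctan_nonneg.2 h0)
  rw [Real.sin_arctan] at h2
  have h3 : √(1 + (((2944 : ℕ) : ℝ) / (65536 : ℕ)) ^ 2) ≤ 1002 / 1000 := by
    rw [Real.sqrt_le_left (by norm_num)]; norm_num
  have h4 := (div_le_div_of_nonneg_left h0 (by positivity) h3).trans h2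
  unfold ang
  constructor
  · refine le_trans (by norm_num) (mul_le_mul_of_nonneg_left h4 zero_le_two)
  · refine le_trans (mul_le_mul_of_nonneg_left h1 zero_le_two) (by norm_num)

theorem cos_ref : |Real.cos (1 / 2000) - (1 - 1 / 8000000)| ≤ 1 / 10 ^ 14 := by
  have := Real.cos_bound (x := 1 / 2000) (by rw [abs_of_pos] <;> norm_num)
  rw [abs_of_pos (by norm_num : (0 : ℝ) < 1 / 2000)] at this
  refine le_trans (le_of_eq ?_) (this.trans (by norm_num))
  norm_num

theorem RR_ref : |((1099511627776 : ℕ) : ℝ) * RR (1 / 10) - (408757202882 : ℕ)| ≤ (40000 : ℕ) := by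
  have h1 := abs_le.1 (Real.exp_bound (x := 21 / 2000) (by rw [abs_of_pos] <;> norm_num)
    (n := 4) (by norm_num))
  rw [abs_of_pos (by norm_num : (0 : ℝ) < 21 / 2000)] at h1
  norm_num [Finset.sum_range_succ, Nat.factorial] at h1
  have h2 := Real.exp_neg_one_gt_d9
  have h3 := Real.exp_neg_one_lt_d9
  have h4 := Real.sin_le (x := 1 / 2000) (by norm_num)
  have h5 := Real.sin_ge_sub_cube (x := 1 / 2000) (by norm_num)
  have e : RR (1 / 10) = Real.exp (21 / 2000) * Real.exp (-1) * (Real.sin (1 / 2000) * 2000) := by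
    rw [RR, ← Real.exp_add]; norm_num
    ring
  have a1 : (1.010555317 : ℝ) * 0.36787944116 * (1 - 1 / 24000000) ≤ RR (1 / 10) := by
    rw [e]; gcongr <;> linarith [h1.1]
  have a2 : RR (1 / 10) ≤ (1.01055532 : ℝ) * 0.3678794412 * 1 := by
    have : 0 ≤ Real.sin (1 / 2000) := by linarith
    rw [e]; gcongr <;> linarith [h1.2]
  rw [abs_le]
  push_cast
  constructor <;> linarith

theorem RR_pos {v : ℝ} (hv : 0 < v) (hv1 : v ≤ 1 / 10) : 0 < RR v ∧ 0 < Real.sin (v ^ 3 / 2) := by
  have h1 : v ^ 3 ≤ (1 / 10) ^ 3 := pow_le_pow_left₀ hv.le hv1 3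
  have h2 : 0 < Real.sin (v ^ 3 / 2) :=
    Real.sin_pos_of_pos_of_lt_pi (by positivity) (by linarith [Real.pi_gt_three])
  exact ⟨by unfold RR; positivity, h2⟩

theorem small {v : ℝ} (hv : 0 < v) (hv1 : v ≤ 1 / 10) : Good (Real.cos (v ^ 3 / 2)) (RR v) := by
  obtain ⟨b, Φ, hb1, hb2, hW⟩ := H73.window
  have h10 : (0 : ℝ) < 1 / 10 := by norm_num
  have e0 : ((1 : ℝ) / 10) ^ 3 / 2 = 1 / 2000 := by norm_num
  obtain ⟨L, sl, t', ht', h1, h2, h3⟩ := gen_spec (φ := (1 / 10) ^ 3 / 2) (R := RR (1 / 10))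
    (by norm_num) (by norm_num) ref_ok (RR_pos h10 le_rfl).2 (by
      have := abs_le.1 cos_ref
      rw [e0, abs_le]; push_cast
      constructor <;> linarith [this.1, this.2]) (RR_pos h10 le_rfl).1.le RR_ref
  set G : ℝ → ℂ := fun α => GG (Real.cos (v ^ 3 / 2)) (RR v * exp (α * I)) with hG
  have hv2 : v ^ 2 ≤ 1 / 100 := by nlinarith
  obtain ⟨k, hk, hI⟩ := check_spec (T := ang 65536 2944) (Q := fun k => 7 ≤ k ∧ k ≤ 9)
    (g := fun β => ((100663296000 * (10 * v) : ℝ) : ℂ) * G (100 * v ^ 2 * β)) (by norm_num)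
    (by rw [(len_fstL L).1, h2]) (by simp) (fun x r k h => by
      simp only [finRef, Bool.and_eq_true, Nat.ble_eq, Nat.beq_eq] at h
      rw [h.1.1]
      exact ⟨le_rfl, le_add_of_nonneg_right (by positivity), h.1.2, h.2⟩) h1 (fun β hβ => by
      have hβ1 : 100 * β ≤ 9 := by linarith [hβ.2, ang_ref.2]
      have hβ0 : 0 ≤ 100 * β := by linarith [hβ.1]
      have a1 := H6.coef_cmp hv hv1 (100 * v ^ 2 * β)
      have a2 := H6.coef_cmp h10 le_rfl β
      have a3 := hW v hv hv1 _ hβ0 hβ1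
      have a4 := hW _ h10 le_rfl _ hβ0 hβ1
      rw [show 100 * β * v ^ 2 = 100 * v ^ 2 * β by ring] at a3
      rw [show 100 * β * (1 / 10) ^ 2 = β by ring] at a4
      have a5 := h3 _ (norm_exp_ofReal_mul_I β).le
      have a6 : ‖(t' : ℂ) * ev (exp (β * I)) (sndL L)‖ ≤ 1 * nrm (sndL L) := by
        rw [norm_mul, norm_real]
        exact mul_le_mul ht' (norm_ev_le (norm_exp_ofReal_mul_I β).le _) (norm_nonneg _)
          zero_le_one
      refine ⟨1 - 200 / 47 * ((1 - 10 * v) * (1 - b)), ?_, ?_⟩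
      · rw [abs_le]; constructor <;> nlinarith
      have b1 : ‖((100663296000 * (10 * v) : ℝ) : ℂ) * (G (100 * v ^ 2 * β) - 1 -
          TT v (100 * v ^ 2 * β))‖ ≤ 100663296000 * (1 / 3) := by
        rw [norm_mul, norm_real, Real.norm_of_nonneg (by positivity)]
        exact mul_le_mul (by linarith) a1 (norm_nonneg _) (by norm_num)
      have c0 : ‖(100663296000 : ℂ)‖ = 100663296000 := by simp
      have c1 : ‖(1006632960000 : ℂ)‖ = 1006632960000 := by simp
      have b2 := mul_le_mul_of_nonneg_left a2 (norm_nonneg (100663296000 : ℂ))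
      have b3 := mul_le_mul_of_nonneg_left a3 (norm_nonneg (1006632960000 : ℂ))
      have b4 := mul_le_mul_of_nonneg_left a4 (norm_nonneg (1006632960000 : ℂ))
      rw [← norm_mul, c0] at b2
      rw [← norm_mul, c1] at b3 b4
      have b5 := norm_add_le_of_le (norm_add_le_of_le (norm_sub_le_of_le (norm_add_le_of_le
        (norm_sub_le_of_le b1 b2) b3) b4) a5) a6
      refine le_of_eq_of_le (congrArg _ ?_) (b5.trans (by push_cast; linarith))
      simp only [ev, val, List.length_nil]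
      push_cast
      ring) (by
      have := H6.pos_small hv hv1 (RR_pos hv hv1).1.le le_rfl
      rw [re_ofReal_mul]
      refine mul_pos (by positivity) ?_
      simpa [hG] using this)
  have hI2 := Inv.scale (by positivity) (by positivity) hI
  have hT := ang_ref
  refine ⟨(RR_pos hv hv1).1, ⟨8, by norm_num, by norm_num, hI2.step ?_ ?_ (by omega) (by omega)
    fun α hα => ?_⟩, fun x h0 h1 h => ?_⟩
  · exact mul_nonneg (by positivity) (by linarith [hT.1])
  · nlinarith [Real.pi_gt_three, hT.1, hT.2]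
  · have a1 := (abs_le.1 ((abs_re_le_norm _).trans (H6.coef_cmp hv hv1 α))).1
    have a2 := H15.large hv hv1 (α := α) (by nlinarith [hα.1, hT.1, pow_pos hv 2]) hα.2
    have a3 : (1 - I : ℂ) ^ 8 = ((16 : ℝ) : ℂ) := by
      have : (1 - I : ℂ) ^ 2 = -2 * I := by linear_combination I_mul_I
      rw [show 8 = 2 * (2 * 2) from rfl, pow_mul, this, pow_mul, mul_pow, I_sq]; norm_num
    rw [a3, re_ofReal_mul]
    simp only [sub_re, one_re] at a1
    simp only [hG]
    linarith
  · have := H6.pos_small hv hv1 h0 h1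
    rw [h] at this
    simp at this

end Pool.Agent.MP_39ed1d_co.H76
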