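import Pool.Agent.MP_39ed1d_co.H76.Basic

/-! Complex-analytic tools and the interface statements. -/

namespace Pool.Agent.MP_39ed1d_co.H76

open Finset Metric Complex

theorem factor_aux (R : ℝ) (hR : 0 < R) (n : ℕ) : ∀ (F : ℂ → ℂ) (M : ℝ), Differentiable ℂ F →
    (∀ z, ‖z‖ = 3 * R → ‖F z‖ ≤ M) → M < 2 ^ n * ‖F 0‖ →
    ∃ (s : Multiset ℂ) (g : ℂ → ℂ), (∀ a ∈ s, ‖a‖ ≤ R) ∧ Differentiable ℂ g ∧
      (∀ z, F z = (s.map fun a => z - a).prod * g z) ∧ ∀ z, ‖z‖ ≤ R → g z ≠ 0 := by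
  induction n with
  | zero =>
    intro F M hF hM h0
    have := norm_le_of_forall_mem_frontier_norm_le (U := ball (0 : ℂ) (3 * R)) isBounded_ball
      hF.diffContOnCl (C := M) (fun z hz => hM z (by
        rw [frontier_ball _ (by positivity)] at hz; simpa using hz)) (z := 0)
      (subset_closure (mem_ball_self (by positivity)))
    linarith
  | succ n ih =>
    intro F M hF hM h0
    by_cases h : ∃ a, ‖a‖ ≤ R ∧ F a = 0
    · obtain ⟨a, ha, hFa⟩ := h
      have hd : Differentiable ℂ (dslope F a) := by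
        rw [← differentiableOn_univ, differentiableOn_dslope Filter.univ_mem]
        exact hF.differentiableOn
      have he : ∀ z, F z = (z - a) * dslope F a z := fun z => by
        have := sub_smul_dslope F a z
        rw [hFa, sub_zero, smul_eq_mul] at this; exact this.symm
      obtain ⟨s, g, h1, h2, h3, h4⟩ := ih (dslope F a) (M / (2 * R)) hd (fun z hz => by
        rw [le_div_iff₀ (by positivity)]
        have h5 := hM z hz
        rw [he z, norm_mul] at h5
        have h6 : 2 * R ≤ ‖z - a‖ := by linarith [norm_sub_norm_le z a]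
        nlinarith [norm_nonneg (dslope F a z)]) (by
        rw [div_lt_iff₀ (by positivity)]
        rw [he 0, norm_mul, zero_sub, norm_neg, pow_succ] at h0
        have : 2 ^ n * 2 * (‖a‖ * ‖dslope F a 0‖) ≤ 2 ^ n * 2 * (R * ‖dslope F a 0‖) := by gcongr
        linarith)
      refine ⟨a ::ₘ s, g, fun b hb => ?_, h2, fun z => ?_, h4⟩
      · rcases Multiset.mem_cons.1 hb with rfl | hb
        · exact ha
        · exact h1 b hb
      · rw [he z, h3 z, Multiset.map_cons, Multiset.prod_cons, mul_assoc]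
    · exact ⟨0, F, by simp, hF, by simp, fun z hz h0 => h ⟨z, hz, h0⟩⟩

/-- an entire function with `F 0 ≠ 0` factors over its zeros in a closed disc -/
theorem factor (F : ℂ → ℂ) (hF : Differentiable ℂ F) (h0 : F 0 ≠ 0) (R : ℝ) (hR : 0 < R) :
    ∃ (s : Multiset ℂ) (g : ℂ → ℂ), (∀ a ∈ s, ‖a‖ ≤ R) ∧ Differentiable ℂ g ∧
      (∀ z, F z = (s.map fun a => z - a).prod * g z) ∧ ∀ z, ‖z‖ ≤ R → g z ≠ 0 := by
  obtain ⟨M, hM⟩ := (isCompact_sphere (0 : ℂ) (3 * R)).exists_bound_of_continuousOn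
    hF.continuous.continuousOn
  obtain ⟨n, hn⟩ := pow_unbounded_of_one_lt (M / ‖F 0‖) (one_lt_two (α := ℝ))
  exact factor_aux R hR n F M hF (fun z hz => hM z (by simpa using hz))
    (by rwa [div_lt_iff₀ (norm_pos_iff.2 h0)] at hn)

/-- holomorphic logarithm on a disc -/
theorem exists_log {f : ℂ → ℂ} {c : ℂ} {r : ℝ} (hr : 0 < r) (hf : DifferentiableOn ℂ f (ball c r))
    (h0 : ∀ z ∈ ball c r, f z ≠ 0) :
    ∃ h : ℂ → ℂ, DifferentiableOn ℂ h (ball c r) ∧ h c = 0 ∧
      ∀ z ∈ ball c r, f z = f c * exp (h z) := by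
  have hd : DifferentiableOn ℂ (fun z => deriv f z / f z) (ball c r) :=
    (hf.deriv isOpen_ball).div hf h0
  obtain ⟨h, hc, hh⟩ := hd.isExactOn_ball.with_val_at c 0
  refine ⟨h, fun z hz => (hh z hz).differentiableAt.differentiableWithinAt, hc, fun z hz => ?_⟩
  have key : ∀ z ∈ ball c r, HasDerivAt (fun z => f z * exp (-h z)) 0 z := fun z hz => by
    have h1 := (hf.differentiableAt (isOpen_ball.mem_nhds hz)).hasDerivAt
    refine (h1.mul (hh z hz).neg.cexp).congr_deriv ?_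
    have := h0 z hz
    simp only [Pi.neg_apply]
    field_simp
    ring
  have := isOpen_ball.is_const_of_deriv_eq_zero (convex_ball c r).isPreconnected
    (fun z hz => (key z hz).differentiableAt.differentiableWithinAt)
    (fun z hz => (key z hz).deriv) hz (mem_ball_self hr)
  simp only [hc, neg_zero, exp_zero, mul_one] at this
  rw [← this, mul_assoc, ← exp_add]; simp

/-- three circles -/
theorem three_circles {f : ℂ → ℂ} {c : ℂ} {r0 r2 r3 a b : ℝ} (h0 : 0 < r0) (h02 : r0 < r2)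
    (h23 : r2 < r3) (hf : DifferentiableOn ℂ f (ball c r3))
    (ha : ∀ z, ‖z - c‖ ≤ r0 → ‖f z‖ ≤ a) (hb : ∀ z, ‖z - c‖ ≤ r2 → ‖f z‖ ≤ b) {z : ℂ}
    (hz0 : r0 ≤ ‖z - c‖) (hz2 : ‖z - c‖ ≤ r2) :
    ‖f z‖ ≤ a ^ (1 - (Real.log ‖z - c‖ - Real.log r0) / (Real.log r2 - Real.log r0)) *
      b ^ ((Real.log ‖z - c‖ - Real.log r0) / (Real.log r2 - Real.log r0)) := by
  have h2 : 0 < r2 := h0.trans h02
  have hz : z - c ≠ 0 := norm_pos_iff.1 (h0.trans_le hz0)
  have hn : ∀ w : ℂ, w.re ≤ Real.log r2 → ‖c + exp w - c‖ ≤ r2 := fun w hw => by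
    rw [add_sub_cancel_left, norm_exp]
    exact (Real.exp_le_exp.2 hw).trans (Real.exp_log h2).le
  have hcl : closure (HadamardThreeLines.verticalStrip (Real.log r0) (Real.log r2)) ⊆
      {w : ℂ | w.re ≤ Real.log r2} :=
    closure_minimal (fun w hw => hw.2.le) (isClosed_le continuous_re continuous_const)
  have hd : DifferentiableOn ℂ (fun w => f (c + exp w)) {w : ℂ | w.re ≤ Real.log r2} :=
    hf.comp (by fun_prop) fun w hw => by
      rw [mem_ball_iff_norm]; exact (hn w hw).trans_lt h23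
  have := HadamardThreeLines.norm_le_interp_of_mem_verticalClosedStrip'
    (f := fun w => f (c + exp w)) (z := log (z - c)) (a := a) (b := b)
    (Real.log_lt_log h0 h02)
    ⟨by rw [log_re]; exact Real.log_le_log h0 hz0,
      by rw [log_re]; exact Real.log_le_log (h0.trans_le hz0) hz2⟩
    (DifferentiableOn.diffContOnCl (hd.mono hcl))
    ⟨b, by rintro _ ⟨w, hw, rfl⟩; exact hb _ (hn w hw.2)⟩
    (fun w hw => ha _ (by
      rw [add_sub_cancel_left, norm_exp, show w.re = Real.log r0 from hw, Real.exp_log h0]))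
    (fun w hw => hb _ (hn w (le_of_eq hw)))
  rwa [exp_log hz, add_sub_cancel, log_re] at this

theorem aa_one_real (n : ℕ) : ∃ A : ℕ → ℝ, A 0 = 1 ∧ (∀ k, 0 ≤ A k) ∧
    (∀ k : ℕ, ((k : ℝ) + 1) * A (k + 1) = ∑ j ∈ range (k + 1), ((j : ℝ) + 1) * A j * A (k - j)) ∧
    ∀ y : ℂ, ‖y‖ ≤ 1 → ‖aa y n‖ ≤ A n := by
  have hre : ∀ k, ∃ x : ℝ, 0 ≤ x ∧ aa 1 k = x := by
    intro k
    induction k using Nat.strong_induction_on with
    | _ k ih =>
      rcases k with _ | k
      · exact ⟨1, zero_le_one, by simp [aa_zero]⟩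
      · choose! x hx0 hx using ih
        have h : ((k : ℂ) + 1) ≠ 0 := by exact_mod_cast k.succ_ne_zero
        refine ⟨(∑ j ∈ range (k + 1), ((j : ℝ) + 1) * x j * x (k - j)) / (k + 1), ?_, ?_⟩
        · refine div_nonneg (sum_nonneg fun j hj => ?_) (by positivity)
          have := hx0 j (mem_range.1 hj)
          have := hx0 (k - j) (by omega)
          positivity
        · push_cast
          rw [eq_div_iff h, mul_comm, aa_succ]
          refine sum_congr rfl fun j hj => ?_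
          rw [hx j (mem_range.1 hj), hx (k - j) (by omega)]; simp
  choose A hA0 hA using hre
  have hrec : ∀ k : ℕ, ((k : ℝ) + 1) * A (k + 1) =
      ∑ j ∈ range (k + 1), ((j : ℝ) + 1) * A j * A (k - j) := fun k => by
    have := aa_succ 1 k
    simp only [hA, one_pow, sum_const, card_range, nsmul_eq_mul, mul_one] at this
    exact_mod_cast this
  refine ⟨A, by have := hA 0; rw [aa_zero] at this; exact_mod_cast this.symm, hA0, hrec,
    fun y hy => ?_⟩
  induction n using Nat.strong_induction_on with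
  | _ n ih =>
    rcases n with _ | n
    · have := hA 0; rw [aa_zero] at this
      rw [aa_zero, this]; simp [abs_of_nonneg (hA0 0)]
    · have h : (0 : ℝ) < n + 1 := by positivity
      refine le_of_mul_le_mul_left ?_ h
      have h1 : ((n : ℝ) + 1) * ‖aa y (n + 1)‖ = ‖((n : ℂ) + 1) * aa y (n + 1)‖ := by
        rw [norm_mul]; congr 1
        rw [show ((n : ℂ) + 1) = ((n + 1 : ℕ) : ℂ) by push_cast; rfl, Complex.norm_natCast]
        push_cast; rfl
      rw [h1, aa_succ, hrec]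
      refine (norm_sum_le _ _).trans (sum_le_sum fun j hj => ?_)
      rw [norm_mul, norm_mul]
      have h2 : ‖∑ i ∈ range (j + 1), y ^ i‖ ≤ (j : ℝ) + 1 := by
        refine (norm_sum_le _ _).trans ?_
        refine (sum_le_card_nsmul _ _ 1 fun i _ => ?_).trans (by simp)
        rw [norm_pow]; exact pow_le_one₀ (norm_nonneg _) hy
      have := hA0 j
      gcongr
      · exact ih j (mem_range.1 hj)
      · exact ih (n - j) (by omega)

theorem sum_tri_le (a b : ℕ → ℝ) (ha : ∀ k, 0 ≤ a k) (hb : ∀ k, 0 ≤ b k) (n : ℕ) :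
    ∑ k ∈ range n, ∑ j ∈ range (k + 1), a j * b (k - j) ≤
      (∑ j ∈ range n, a j) * ∑ j ∈ range n, b j := by
  rw [sum_sigma', sum_mul_sum, ← sum_product']
  have hinj : Set.InjOn (fun p : (_ : ℕ) × ℕ => (p.2, p.1 - p.2))
      ((range n).sigma fun k => range (k + 1) : Finset _) := by
    rintro ⟨k, j⟩ h1 ⟨k', j'⟩ h2 h
    simp only [coe_sigma, Set.mem_sigma_iff, coe_range, Set.mem_Iio, Prod.mk.injEq] at h1 h2 h
    obtain ⟨rfl, h⟩ := h
    have : k = k' := by omega
    subst this; rfl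
  rw [← sum_image (f := fun p : ℕ × ℕ => a p.1 * b p.2) hinj]
  refine sum_le_sum_of_subset_of_nonneg (fun p hp => ?_) fun p _ _ => mul_nonneg (ha _) (hb _)
  obtain ⟨q, hq, rfl⟩ := mem_image.1 hp
  simp only [mem_sigma, mem_range, mem_product] at hq ⊢
  omega

/-- the sharp exponential bound on the closed unit disc -/
theorem norm_aa_le {y : ℂ} (hy : ‖y‖ ≤ 1) (n : ℕ) : ‖aa y n‖ ≤ Real.exp (n + 1) := by
  obtain ⟨A, h0, hA, hrec, hle⟩ := aa_one_real n
  refine (hle y hy).trans ?_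
  set P : ℕ → ℝ → ℝ := fun m t => ∑ k ∈ range m, A k * t ^ k with hP
  have key : ∀ m t, 0 ≤ t → P (m + 1) t ≤ Real.exp (t * P m t) := by
    intro m t ht
    have hd : ∀ s, HasDerivAt (fun s => P (m + 1) s * Real.exp (-(s * P m s)))
        (((∑ k ∈ range m, ((k : ℝ) + 1) * A (k + 1) * s ^ k) -
          P (m + 1) s * ∑ k ∈ range m, ((k : ℝ) + 1) * A k * s ^ k) *
            Real.exp (-(s * P m s))) s := fun s => by
      have d1 : HasDerivAt (P (m + 1)) (∑ k ∈ range m, ((k : ℝ) + 1) * A (k + 1) * s ^ k) s := by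
        have : P (m + 1) = fun s => ∑ k ∈ range m, A (k + 1) * s ^ (k + 1) + A 0 * s ^ 0 := by
          funext s; simp only [hP]; rw [sum_range_succ']
        rw [this]
        simp only [pow_zero]
        refine (HasDerivAt.fun_sum fun k _ => ?_).add_const _
        refine ((hasDerivAt_pow (k + 1) s).const_mul (A (k + 1))).congr_deriv ?_
        rw [Nat.add_sub_cancel]; push_cast; ring
      have d2 : HasDerivAt (fun s => s * P m s) (∑ k ∈ range m, ((k : ℝ) + 1) * A k * s ^ k) s := by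
        have : (fun s => s * P m s) = fun s => ∑ k ∈ range m, A k * s ^ (k + 1) := by
          funext s; simp only [hP, mul_sum]; exact sum_congr rfl fun k _ => by ring
        rw [this]
        refine HasDerivAt.fun_sum fun k _ => ?_
        refine ((hasDerivAt_pow (k + 1) s).const_mul (A k)).congr_deriv ?_
        rw [Nat.add_sub_cancel]; push_cast; ring
      refine (d1.mul d2.neg.exp).congr_deriv ?_
      simp only [Pi.neg_apply]; ring
    have hanti : AntitoneOn (fun s => P (m + 1) s * Real.exp (-(s * P m s))) (Set.Ici 0) := by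
      refine antitoneOn_of_deriv_nonpos (convex_Ici 0)
        (fun s _ => (hd s).continuousAt.continuousWithinAt)
        (fun s _ => (hd s).differentiableAt.differentiableWithinAt) fun s hs => ?_
      rw [(hd s).deriv]
      have hs : 0 ≤ s := by rw [interior_Ici] at hs; exact le_of_lt hs
      refine mul_nonpos_of_nonpos_of_nonneg (sub_nonpos.2 ?_) (Real.exp_pos _).le
      have h1 := sum_tri_le (fun k => ((k : ℝ) + 1) * A k * s ^ k) (fun k => A k * s ^ k)
        (fun k => by have := hA k; positivity) (fun k => by have := hA k; positivity) m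
      have h2 : P m s ≤ P (m + 1) s := by
        simp only [hP]; rw [sum_range_succ]
        have := hA m
        have : 0 ≤ A m * s ^ m := by positivity
        linarith
      have h3 : 0 ≤ ∑ k ∈ range m, ((k : ℝ) + 1) * A k * s ^ k :=
        sum_nonneg fun k _ => by have := hA k; positivity
      calc _ = ∑ k ∈ range m, ∑ j ∈ range (k + 1),
            ((j : ℝ) + 1) * A j * s ^ j * (A (k - j) * s ^ (k - j)) := by
            refine sum_congr rfl fun k _ => ?_
            rw [hrec, sum_mul]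
            refine sum_congr rfl fun j hj => ?_
            have : s ^ k = s ^ j * s ^ (k - j) := by
              rw [← pow_add]; congr 1; have := mem_range.1 hj; omega
            rw [this]; ring
        _ ≤ _ := h1
        _ ≤ _ := by rw [mul_comm]; exact mul_le_mul_of_nonneg_right h2 h3
    have h4 := hanti (Set.mem_Ici.2 le_rfl) (Set.mem_Ici.2 ht) ht
    have h5 : P (m + 1) 0 = 1 := by simp only [hP]; rw [sum_range_succ']; simp [h0]
    simp only [h5, zero_mul, neg_zero, Real.exp_zero, mul_one] at h4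
    rwa [Real.exp_neg, ← div_eq_mul_inv, div_le_one (Real.exp_pos _)] at h4
  have h6 : ∀ m, P m (Real.exp (-1)) ≤ Real.exp 1 := by
    intro m
    induction m with
    | zero => simp [hP, (Real.exp_pos 1).le]
    | succ m ih =>
      refine (key m _ (Real.exp_pos _).le).trans (Real.exp_le_exp.2 ?_)
      calc _ ≤ Real.exp (-1) * Real.exp 1 := by gcongr
        _ = 1 := by rw [← Real.exp_add]; simp
  have h7 : A n * Real.exp (-1) ^ n ≤ P (n + 1) (Real.exp (-1)) :=
    single_le_sum (f := fun k => A k * Real.exp (-1) ^ k)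
      (fun k _ => by have := hA k; positivity) (self_mem_range_succ n)
  have h8 := h7.trans (h6 _)
  rw [← Real.exp_nat_mul, mul_neg, mul_one, Real.exp_neg, ← div_eq_mul_inv,
    div_le_iff₀ (Real.exp_pos _), ← Real.exp_add, add_comm] at h8
  exact h8

/-- the spectral gap in the open unit disc, on coefficients -/
def Gap : Prop := ∀ r : ℝ, r < 1 → ∃ K γ c : ℝ, 0 < c ∧ 0 < γ ∧ γ < 1 ∧ ∀ y : ℂ, ‖y‖ ≤ r →
  ∃ m : ℂ, c ≤ ‖m‖ ∧ ‖m‖ ≤ K ∧ ∀ n, ‖aa y n - (1 - y) * m ^ (n + 1)‖ ≤ K * γ ^ n * ‖m‖ ^ n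

/-- boundary information: a unique leading zero on the unit circle -/
def BI : Prop := ∀ η : ℝ, 0 < η → ∃ δ : ℝ, 0 < δ ∧ ∀ y : ℂ, ‖y‖ = 1 → y ≠ 1 →
  ∃ (R : ℝ) (t0 : ℂ) (g : ℂ → ℂ), ‖t0‖ < R ∧ Differentiable ℂ g ∧
    (∀ t, dE y (t / (y - 1)) = (t - t0) * g t) ∧ (∀ t, ‖t‖ ≤ R → g t ≠ 0) ∧
    -(t0 / y) ∈ slitPlane ∧ (‖y - 1‖ < δ → R ≤ Real.exp (η - 1))

/-- asymptotics of `aa` on the unit circle -/
def Arc : Prop := ∃ μ : ℝ → ℂ, ContinuousOn μ (Set.Ioo 0 (2 * Real.pi)) ∧
  (∀ θ ∈ Set.Ioo 0 (2 * Real.pi), -(μ θ * exp (θ * I)) ∈ slitPlane) ∧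
  (∀ η : ℝ, 0 < η → ∃ δ : ℝ, 0 < δ ∧ ∀ θ ∈ Set.Ioo 0 (2 * Real.pi),
    (θ < δ ∨ 2 * Real.pi - δ < θ) → Real.exp (1 - η) ≤ ‖μ θ‖) ∧
  TendstoLocallyUniformlyOn
    (fun (n : ℕ) (θ : ℝ) => aa (exp (θ * I)) n / ((1 - exp (θ * I)) * μ θ ^ (n + 1)))
    (fun _ => 1) Filter.atTop (Set.Ioo 0 (2 * Real.pi))

/-- the gap near the origin -/
def Near : Prop := ∃ (r K γ : ℝ) (μ : ℂ → ℂ), 0 < r ∧ r < 1 ∧ 0 < γ ∧ γ < 1 ∧
  DifferentiableOn ℂ μ (ball 0 r) ∧ μ 0 = 1 ∧ ∀ y : ℂ, ‖y‖ < r → ‖μ y - 1‖ ≤ 1 / 2 ∧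
    ∀ n, ‖aa y n - (1 - y) * μ y ^ (n + 1)‖ ≤ K * γ ^ n * ‖μ y‖ ^ n

/-- `aa y n` has `o(n)` zeros in every smaller disc -/
def Few : Prop := ∀ r η : ℝ, r < 1 → 0 < η → ∀ᶠ n : ℕ in Filter.atTop,
  ∀ (s : Multiset ℂ) (g : ℂ → ℂ), (∀ a ∈ s, ‖a‖ ≤ r) → Differentiable ℂ g →
    (∀ y, aa y n = (s.map fun a => y - a).prod * g y) → (s.card : ℝ) ≤ η * n

/-- number of nowhere-zero flows of the complete graph -/
noncomputable def nflow (n q : ℕ) : ℕ :=
  Nat.card {f : {p : Fin n × Fin n // p.1 < p.2} → ZMod q //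
    (∀ e, f e ≠ 0) ∧ ∀ v : Fin n, ∑ e with e.1.2 = v, f e = ∑ e with e.1.1 = v, f e}

end Pool.Agent.MP_39ed1d_co.H76
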