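import Pool.Agent.MP_39ed1d_co.H76.Tools

/-! The argument principle on a circle. -/

namespace Pool.Agent.MP_39ed1d_co.H76

open Metric Complex

theorem differentiable_prod (s : Multiset ℂ) :
    Differentiable ℂ fun z => (s.map fun a => z - a).prod := by
  induction s using Multiset.induction_on with
  | empty => simp
  | cons a s ih =>
    simp only [Multiset.map_cons, Multiset.prod_cons]
    exact (differentiable_id.sub_const a).mul ih

theorem prod_ne_zero_of {s : Multiset ℂ} {z : ℂ} (h : ∀ a ∈ s, z ≠ a) :
    (s.map fun a => z - a).prod ≠ 0 := by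
  refine Multiset.prod_ne_zero fun h0 => ?_
  obtain ⟨a, ha, h1⟩ := Multiset.mem_map.1 h0
  exact h a ha (sub_eq_zero.1 h1)

/-- weighted argument principle -/
theorem wind {R : ℝ} (hR : 0 < R) {φ g : ℂ → ℂ} (hφ : DiffContOnCl ℂ φ (ball 0 R))
    (hg : Differentiable ℂ g) (hg0 : ∀ z, ‖z‖ ≤ R → g z ≠ 0) (s : Multiset ℂ) :
    ∀ F : ℂ → ℂ, (∀ a ∈ s, ‖a‖ < R) → (∀ z, F z = (s.map fun a => z - a).prod * g z) →
      (∮ z in C(0, R), φ z * (deriv F z / F z)) = 2 * Real.pi * I * (s.map φ).sum := by
  have hφc : ContinuousOn φ (closedBall 0 R) := by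
    have := hφ.continuousOn; rwa [closure_ball _ hR.ne'] at this
  induction s using Multiset.induction_on with
  | empty =>
    intro F _ hF
    have : F = g := funext fun z => by simpa using hF z
    subst this
    simp only [Multiset.map_zero, Multiset.sum_zero, mul_zero]
    refine DiffContOnCl.circleIntegral_eq_zero hR.le ⟨?_, ?_⟩
    · exact hφ.differentiableOn.mul (hg.deriv.differentiableOn.div hg.differentiableOn
        fun z hz => hg0 z (mem_ball_zero_iff.1 hz).le)
    · rw [closure_ball _ hR.ne']
      exact hφc.mul (hg.deriv.continuous.continuousOn.div hg.continuous.continuousOn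
        fun z hz => hg0 z (mem_closedBall_zero_iff.1 hz))
  | cons a s ih =>
    intro F hs hF
    set G : ℂ → ℂ := fun z => (s.map fun a => z - a).prod * g z with hG
    have hGd : Differentiable ℂ G := (differentiable_prod s).mul hg
    have ha : ‖a‖ < R := hs a (Multiset.mem_cons_self _ _)
    have hs' : ∀ b ∈ s, ‖b‖ < R := fun b hb => hs b (Multiset.mem_cons_of_mem hb)
    have hFG : F = fun z => (z - a) * G z := funext fun z => by
      rw [hF z, Multiset.map_cons, Multiset.prod_cons, mul_assoc]
    have hG0 : ∀ z ∈ sphere (0 : ℂ) R, G z ≠ 0 := fun z hz => by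
      have hz : ‖z‖ = R := by simpa using hz
      exact mul_ne_zero (prod_ne_zero_of fun b hb h => by
        have := hs' b hb; rw [← h] at this; linarith) (hg0 z hz.le)
    have hza : ∀ z ∈ sphere (0 : ℂ) R, z - a ≠ 0 := fun z hz h => by
      have hz : ‖z‖ = R := by simpa using hz
      rw [sub_eq_zero.1 h] at hz; linarith
    have h1 : (∮ z in C(0, R), φ z * (deriv F z / F z)) =
        ∮ z in C(0, R), ((z - a)⁻¹ • φ z + φ z * (deriv G z / G z)) := by
      refine circleIntegral.integral_congr hR.le fun z hz => ?_
      have hd : HasDerivAt F (1 * G z + (z - a) * deriv G z) z := by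
        rw [hFG]; exact ((hasDerivAt_id z).sub_const a).mul (hGd z).hasDerivAt
      have := hG0 z hz
      have := hza z hz
      simp only [hd.deriv, smul_eq_mul]
      rw [hFG]
      field_simp
    have hsp : ContinuousOn φ (sphere 0 R) := hφc.mono sphere_subset_closedBall
    rw [h1, circleIntegral.integral_add, ih G hs' (fun _ => rfl),
      hφ.circleIntegral_sub_inv_smul (mem_ball_zero_iff.2 ha), Multiset.map_cons,
      Multiset.sum_cons, smul_eq_mul]
    · ring
    · exact ContinuousOn.circleIntegrable hR.le
        (((continuousOn_id.sub continuousOn_const).inv₀ hza).smul hsp)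
    · exact ContinuousOn.circleIntegrable hR.le (hsp.mul
        (hGd.deriv.continuous.continuousOn.div hGd.continuous.continuousOn hG0))

end Pool.Agent.MP_39ed1d_co.H76
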